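import Mathlib
import Pool.Agent.R701.UG.Rel

/-!
# The inequality of Smyth and Schinzel for a family of polynomials
-/

set_option autoImplicit false

open Polynomial

namespace Pool.Agent.Run7.h80.Comp

open Pool.Agent.R701.UG Pool.Agent.H338R2

lemma sqrt5_sq : √5 * √5 = (5 : ℝ) := Real.mul_self_sqrt (by norm_num)

lemma sqrt5_gt : (2 : ℝ) < √5 := by
  rw [Real.lt_sqrt (by norm_num)]
  norm_num

lemma log_golden_pos : 0 < Real.log Real.goldenRatio :=
  Real.log_pos Real.one_lt_goldenRatio

lemma golden_eq : Real.goldenRatio = (1 + √5) / 2 := rfl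

/-- the arithmetic geometric mean inequality with the weights `1 / φ` and `1 / φ ^ 2` -/
lemma amgm {D V U : ℝ} (hD : 0 < D) (hV : 0 < V) (h : D + V ≤ U) :
    Real.log D + (√5 - 1) / 2 * Real.log V + √5 * Real.log Real.goldenRatio ≤
      Real.goldenRatio * Real.log U := by
  have h5 := sqrt5_sq
  have h5' := sqrt5_gt
  have hg := Real.goldenRatio_pos
  set φ := Real.goldenRatio with hφ
  have hφe : φ = (1 + √5) / 2 := rfl
  have hS : 0 < D + V := by linarith
  have h1 := Real.log_le_sub_one_of_pos (x := φ * D / (D + V)) (by positivity)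
  have h2 := Real.log_le_sub_one_of_pos (x := φ ^ 2 * V / (D + V)) (by positivity)
  rw [Real.log_div (by positivity) hS.ne', Real.log_mul hg.ne' hD.ne'] at h1
  rw [Real.log_div (by positivity) hS.ne', Real.log_mul (by positivity) hV.ne', Real.log_pow] at h2
  push_cast at h2
  have h3 : Real.log (D + V) ≤ Real.log U := Real.log_le_log hS h
  have h4 : φ * Real.log (D + V) ≤ φ * Real.log U := mul_le_mul_of_nonneg_left h3 hg.le
  have h6 := mul_le_mul_of_nonneg_left h2 (by linarith : (0 : ℝ) ≤ (√5 - 1) / 2)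
  have e1 : (√5 - 1) / 2 * (φ ^ 2 * V / (D + V) - 1) = φ * V / (D + V) - (√5 - 1) / 2 := by
    have : (√5 - 1) / 2 * φ ^ 2 = φ := by
      rw [hφe]
      nlinarith
    rw [mul_sub, mul_one, ← mul_div_assoc, ← mul_assoc, this]
  have e2 : φ * D / (D + V) + φ * V / (D + V) = φ := by
    rw [← add_div, ← mul_add]
    field_simp
  have e3 : (√5 - 1) / 2 = φ - 1 := by rw [hφe]; ring
  have e4 : √5 = 2 * φ - 1 := by rw [hφe]; ring
  rw [e1] at h6
  rw [e3] at h6 ⊢
  rw [e4]
  nlinarith [h6, h1, h4, e2]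

lemma mahler_eq_up {P : ℂ[X]} (hP : P.Monic) : P.mahlerMeasure = up P.roots := by
  rw [mahlerMeasure_eq_leadingCoeff_mul_prod_roots, hP.leadingCoeff, norm_one, one_mul]
  rfl

lemma pl_roots' {P : ℂ[X]} (hP : P.Monic) : P = pl P.roots :=
  (IsAlgClosed.splits P).eq_prod_roots_of_monic hP

lemma pr_roots {P : ℂ[X]} (hP : P.Monic) : pr P.roots = (P.map (starRingEnd ℂ)).reverse := by
  have h3 : P.map (starRingEnd ℂ) =
      ((P.roots.map (starRingEnd ℂ)).map (fun a => (X - C a : ℂ[X]))).prod := by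
    conv_lhs => rw [pl_roots' hP]
    rw [pl, Polynomial.map_multiset_prod, Multiset.map_map, Multiset.map_map]
    congr 1
    apply Multiset.map_congr rfl
    intro a _
    simp
  rw [h3, reverse_prod, Multiset.map_map]
  rfl

lemma norm_pl_zero' (R : Multiset ℂ) : ‖(pl R).coeff 0‖ = up R * lo R := by
  rw [up_mul_lo]
  induction R using Multiset.induction_on with
  | empty => simp [pl]
  | cons a R ih =>
    rw [pl] at ih ⊢
    rw [Multiset.map_cons, Multiset.prod_cons, Polynomial.mul_coeff_zero, norm_mul, ih,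
      Multiset.map_cons, Multiset.prod_cons]
    simp

/-- the defect of index `k` of a polynomial -/
noncomputable def defect (P : ℂ[X]) (k : ℕ) : ℂ :=
  P.coeff k - P.coeff 0 * starRingEnd ℂ (P.coeff (P.natDegree - k))

/-- the inequality for one polynomial -/
theorem one_poly {P : ℂ[X]} (hP : P.Monic) (hu : P.coeff 0 ≠ 0) (k : ℕ)
    (hkm : k ≤ P.natDegree) (hlt : ∀ j < k, defect P j = 0) (hne : defect P k ≠ 0) :
    Real.log ‖defect P k‖ + (√5 - 1) * Real.log ‖P.coeff 0‖ +
      √5 * Real.log Real.goldenRatio ≤ 2 * √5 * Real.log P.mahlerMeasure := by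
  set w : ℂ[X] := P - C (P.coeff 0) * (P.map (starRingEnd ℂ)).reverse with hw
  have hwc : ∀ j ≤ P.natDegree, w.coeff j = defect P j := by
    intro j hj
    rw [hw, coeff_sub, coeff_C_mul, coeff_reverse, coeff_map,
      natDegree_map_eq_of_injective (starRingEnd ℂ).injective, revAt_le hj, defect]
  have hR0 : ∀ a ∈ P.roots, a ≠ 0 := by
    rintro a ha rfl
    have h1 := (Polynomial.mem_roots'.1 ha).2
    rw [Polynomial.IsRoot, ← Polynomial.coeff_zero_eq_eval_zero] at h1
    exact hu h1
  have hmain := rel_ineq P.roots hR0 w (P.coeff 0) (by rw [pr_roots hP, ← pl_roots' hP])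
    (by rw [← pl_roots' hP]) k (by rw [hwc k hkm]; exact hne)
    (fun i hi => by rw [hwc i (hi.le.trans hkm), hlt i hi])
  rw [hwc k hkm] at hmain
  have hup := one_le_up P.roots
  have hun : ‖P.coeff 0‖ = up P.roots * lo P.roots := by
    rw [← norm_pl_zero', ← pl_roots' hP]
  have hlo : 0 < lo P.roots := by
    have h1 : 0 < ‖P.coeff 0‖ := norm_pos_iff.2 hu
    rw [hun] at h1
    exact pos_of_mul_pos_right h1 (by linarith)
  have hD : 0 < ‖defect P k‖ := norm_pos_iff.2 hne
  have h1 := amgm hD (pow_pos hlo 2) (by linarith : ‖defect P k‖ + lo P.roots ^ 2 ≤ up P.roots ^ 2)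
  rw [Real.log_pow, Real.log_pow, golden_eq] at h1
  rw [mahler_eq_up hP, hun, Real.log_mul (by linarith) hlo.ne', golden_eq]
  push_cast at h1
  nlinarith [h1]

/-- the inequality for a family of polynomials -/
theorem prod_bound {ι : Type*} (T : Multiset ι) (y d u : ι → ℝ) (hy : ∀ i ∈ T, 0 < y i)
    (hd : ∀ i ∈ T, 0 < d i) (hu : ∀ i ∈ T, 0 < u i)
    (h : ∀ i ∈ T, Real.log (d i) + (√5 - 1) * Real.log (u i) + √5 * Real.log Real.goldenRatio ≤
      2 * √5 * Real.log (y i)) {a : ℝ} (ha : 1 ≤ a)
    (hda : 1 ≤ a * (T.map d).prod) (hua : 1 ≤ a * (T.map u).prod) :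
    Real.goldenRatio ^ (Multiset.card T) ≤ (a * (T.map y).prod) ^ 2 := by
  have hpos : ∀ (v : ι → ℝ) (S : Multiset ι), (∀ i ∈ S, 0 < v i) → 0 < (S.map v).prod := by
    intro v S hv
    apply Multiset.prod_pos
    intro x hx
    obtain ⟨i, hi, rfl⟩ := Multiset.mem_map.1 hx
    exact hv i hi
  have key : ∀ S : Multiset ι, S ≤ T → Real.log (S.map d).prod +
      (√5 - 1) * Real.log (S.map u).prod + √5 * (Multiset.card S * Real.log Real.goldenRatio) ≤
      2 * √5 * Real.log (S.map y).prod := by
    intro S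
    induction S using Multiset.induction_on with
    | empty => intro _; simp
    | cons i S ih =>
      intro hS
      have hiT : i ∈ T := Multiset.mem_of_le hS (Multiset.mem_cons_self i S)
      have hST : S ≤ T := (Multiset.le_cons_self S i).trans hS
      have hsub : ∀ j ∈ S, j ∈ T := fun j hj => Multiset.mem_of_le hST hj
      have h1 := ih hST
      have h2 := h i hiT
      rw [Multiset.map_cons, Multiset.prod_cons, Multiset.map_cons, Multiset.prod_cons,
        Multiset.map_cons, Multiset.prod_cons, Multiset.card_cons,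
        Real.log_mul (hd i hiT).ne' (hpos d S fun j hj => hd j (hsub j hj)).ne',
        Real.log_mul (hu i hiT).ne' (hpos u S fun j hj => hu j (hsub j hj)).ne',
        Real.log_mul (hy i hiT).ne' (hpos y S fun j hj => hy j (hsub j hj)).ne']
      push_cast
      nlinarith [h1, h2]
  have h1 := key T le_rfl
  have hd1 := Real.log_nonneg hda
  have hu1 := Real.log_nonneg hua
  have ha0 : 0 < a := by linarith
  rw [Real.log_mul ha0.ne' (hpos d T hd).ne'] at hd1
  rw [Real.log_mul ha0.ne' (hpos u T hu).ne'] at hu1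
  have hla := Real.log_nonneg ha
  have h5 := sqrt5_gt
  have hyp := hpos y T hy
  rw [← Real.log_le_log_iff (pow_pos Real.goldenRatio_pos _) (by positivity), Real.log_pow,
    Real.log_pow, Real.log_mul ha0.ne' hyp.ne']
  push_cast
  have h6 := mul_nonneg (by linarith : (0 : ℝ) ≤ √5 - 1) hu1
  have h7 : √5 * (Multiset.card T * Real.log Real.goldenRatio) ≤
      √5 * (2 * (Real.log a + Real.log (T.map y).prod)) := by
    nlinarith [h1, hd1, h6, hla]
  exact le_of_mul_le_mul_left h7 (by linarith)

end Pool.Agent.Run7.h80.Comp
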