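import Mathlib

/-!
# Homogenised composition of polynomials
-/

set_option autoImplicit false

open Polynomial Finset

namespace Pool.Agent.Run7.h80.Comp

/-- `∑ g_j A ^ j B ^ (d - j)`, where `d` is the degree of `g` -/
noncomputable def pcomp {R : Type*} [CommRing R] (g : ℤ[X]) (A B : R) : R :=
  ∑ j ∈ range (g.natDegree + 1), (g.coeff j : R) * A ^ j * B ^ (g.natDegree - j)

lemma pcomp_eq {R : Type*} [CommRing R] [CharZero R] (g : ℤ[X]) (A B : R) :
    pcomp g A B = ((g.map (Int.castRingHom R)).scaleRoots B).eval A := by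
  have hinj : Function.Injective (Int.castRingHom R) := (Int.castRingHom R).injective_int
  rw [eval_eq_sum_range, natDegree_scaleRoots, natDegree_map_eq_of_injective hinj, pcomp]
  refine Finset.sum_congr rfl fun j _ => ?_
  rw [coeff_scaleRoots, coeff_map, natDegree_map_eq_of_injective hinj]
  simp only [eq_intCast]
  ring

lemma pcomp_mul {R : Type*} [CommRing R] [CharZero R] [IsDomain R] (g₁ g₂ : ℤ[X]) (A B : R) :
    pcomp (g₁ * g₂) A B = pcomp g₁ A B * pcomp g₂ A B := by
  rw [pcomp_eq, pcomp_eq, pcomp_eq, Polynomial.map_mul, mul_scaleRoots_of_noZeroDivisors, eval_mul]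

lemma map_pcomp {R S : Type*} [CommRing R] [CommRing S] (f : R →+* S) (g : ℤ[X]) (A B : R) :
    f (pcomp g A B) = pcomp g (f A) (f B) := by
  rw [pcomp, pcomp, map_sum]
  refine Finset.sum_congr rfl fun j _ => ?_
  rw [map_mul, map_mul, map_pow, map_pow, map_intCast]

lemma pcomp_one {R : Type*} [CommRing R] (g : ℤ[X]) (A : R) :
    pcomp g A 1 = aeval A g := by
  rw [aeval_eq_sum_range, pcomp]
  refine Finset.sum_congr rfl fun j _ => ?_
  rw [one_pow, mul_one, zsmul_eq_mul]

/-- the factorisation of the homogenised composition -/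
lemma pcomp_prod {R : Type*} [CommRing R] [CharZero R] [IsDomain R] [Algebra ℂ R] (g : ℤ[X])
    (A B : R) :
    pcomp g A B = algebraMap ℂ R (g.leadingCoeff : ℂ) *
      ((g.map (Int.castRingHom ℂ)).roots.map fun t => A - algebraMap ℂ R t * B).prod := by
  have hinj : Function.Injective (Int.castRingHom ℂ) := (Int.castRingHom ℂ).injective_int
  have h1 : (g.map (Int.castRingHom R)) = (g.map (Int.castRingHom ℂ)).map (algebraMap ℂ R) := by
    rw [Polynomial.map_map]
    congr 1
    exact (RingHom.ext_int _ _).symm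
  have h2 : ∀ T : Multiset ℂ,
      (((T.map fun t => (X - C t : ℂ[X])).prod.map (algebraMap ℂ R)).scaleRoots B).eval A =
        (T.map fun t => A - algebraMap ℂ R t * B).prod := by
    intro T
    induction T using Multiset.induction_on with
    | empty =>
      simp only [Multiset.map_zero, Multiset.prod_zero, Polynomial.map_one]
      rw [← C_1, scaleRoots_C, eval_C]
    | cons t T ih =>
      rw [Multiset.map_cons, Multiset.prod_cons, Polynomial.map_mul,
        mul_scaleRoots_of_noZeroDivisors, eval_mul, ih, Multiset.map_cons, Multiset.prod_cons]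
      congr 1
      rw [Polynomial.map_sub, map_X, map_C, eval_eq_sum_range, natDegree_scaleRoots,
        natDegree_X_sub_C, Finset.sum_range_succ, Finset.sum_range_one, coeff_scaleRoots,
        coeff_scaleRoots, natDegree_X_sub_C]
      simp only [coeff_sub, coeff_X_zero, coeff_C_zero, coeff_X_one, coeff_C_succ]
      ring
  have h3 : g.map (Int.castRingHom ℂ) = C (g.leadingCoeff : ℂ) *
      ((g.map (Int.castRingHom ℂ)).roots.map fun t => (X - C t : ℂ[X])).prod := by
    have h4 := (IsAlgClosed.splits (g.map (Int.castRingHom ℂ))).eq_prod_roots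
    rw [leadingCoeff_map_of_injective hinj] at h4
    simpa using h4
  rw [pcomp_eq, h1, h3, Polynomial.map_mul, mul_scaleRoots_of_noZeroDivisors, eval_mul, map_C,
    scaleRoots_C, eval_C, ← h3, h2]

/-- an integer form does not take small values on integers -/
lemma one_le_form {g : ℤ[X]} (hg : g ≠ 0) (p q : ℤ)
    (h : ∀ t ∈ (g.map (Int.castRingHom ℂ)).roots, (p : ℂ) - t * q ≠ 0) :
    1 ≤ |(g.leadingCoeff : ℝ)| *
      ((g.map (Int.castRingHom ℂ)).roots.map fun t => ‖(p : ℂ) - t * q‖).prod := by
  have h1 := pcomp_prod g (p : ℂ) (q : ℂ)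
  have h2 : pcomp g (p : ℂ) (q : ℂ) = ((pcomp g p q : ℤ) : ℂ) := by
    have := map_pcomp (Int.castRingHom ℂ) g p q
    simpa using this.symm
  have h3 : ‖pcomp g (p : ℂ) (q : ℂ)‖ = |(g.leadingCoeff : ℝ)| *
      ((g.map (Int.castRingHom ℂ)).roots.map fun t => ‖(p : ℂ) - t * q‖).prod := by
    rw [h1, norm_mul, Algebra.algebraMap_self, RingHom.id_apply, Complex.norm_intCast]
    congr 1
    generalize (g.map (Int.castRingHom ℂ)).roots = T
    induction T using Multiset.induction_on with
    | empty => simp
    | cons t T ih =>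
      rw [Multiset.map_cons, Multiset.prod_cons, norm_mul, ih, Multiset.map_cons,
        Multiset.prod_cons]
      rfl
  have h4 : 0 < ‖pcomp g (p : ℂ) (q : ℂ)‖ := by
    rw [h3]
    apply mul_pos
    · have : g.leadingCoeff ≠ 0 := leadingCoeff_ne_zero.2 hg
      positivity
    · apply Multiset.prod_pos
      intro x hx
      obtain ⟨t, ht, rfl⟩ := Multiset.mem_map.1 hx
      exact norm_pos_iff.2 (h t ht)
  rw [← h3]
  rw [h2, Complex.norm_intCast] at h4 ⊢
  have h5 : pcomp g p q ≠ 0 := by
    intro h6
    rw [h6] at h4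
    simp at h4
  have := Int.one_le_abs h5
  exact_mod_cast this

end Pool.Agent.Run7.h80.Comp
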