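import Mathlib
import Pool.Agent.Run7.h80.Comp.Core
import Pool.Agent.Run7.h80.Comp.Hom

/-!
# Mahler measure of the composition of an integer form with a pencil of polynomials
-/

set_option autoImplicit false

open Polynomial

namespace Pool.Agent.Run7.h80.Comp

/-- the Mahler measure of an integer polynomial -/
noncomputable def MM (f : ℤ[X]) : ℝ := (f.map (Int.castRingHom ℂ)).mahlerMeasure

lemma MM_mul (f g : ℤ[X]) : MM (f * g) = MM f * MM g := by
  rw [MM, Polynomial.map_mul, mahlerMeasure_mul]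
  rfl

lemma one_le_MM {f : ℤ[X]} (hf : f ≠ 0) : 1 ≤ MM f := one_le_mahlerMeasure_of_ne_zero hf

lemma lead_le_MM (f : ℤ[X]) : |(f.leadingCoeff : ℝ)| ≤ MM f := by
  have h1 := leadingCoeff_le_mahlerMeasure (f.map (Int.castRingHom ℂ))
  rw [leadingCoeff_map_of_injective (Int.castRingHom ℂ).injective_int, eq_intCast,
    Complex.norm_intCast] at h1
  exact h1

lemma MM_pcomp (g A B : ℤ[X]) : MM (pcomp g A B) = |(g.leadingCoeff : ℝ)| *
    ((g.map (Int.castRingHom ℂ)).roots.map fun t =>
      (A.map (Int.castRingHom ℂ) - C t * B.map (Int.castRingHom ℂ)).mahlerMeasure).prod := by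
  have h1 := map_pcomp (mapRingHom (Int.castRingHom ℂ)) g A B
  rw [coe_mapRingHom] at h1
  rw [MM, h1, pcomp_prod, mahlerMeasure_mul, prod_mahlerMeasure_eq_mahlerMeasure_prod,
    Multiset.map_map]
  simp only [Function.comp_def, algebraMap_eq]
  rw [mahlerMeasure_const, Complex.norm_intCast]

/-- **The pencil inequality.** -/
theorem pencil {A B : ℤ[X]} (hA : A.Monic) {k : ℕ} (hk : 0 < k) (hkm : k ≤ A.natDegree)
    (hB : ∀ j, A.natDegree - k ≤ j → B.coeff j = 0)
    (hlt : ∀ j, 0 < j → j < k → A.coeff j = A.coeff 0 * A.coeff (A.natDegree - j) ∧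
      B.coeff j = B.coeff 0 * A.coeff (A.natDegree - j)) {g : ℤ[X]} (hg : g ≠ 0)
    (hT : ∀ t ∈ (g.map (Int.castRingHom ℂ)).roots, ((A.coeff 0 : ℤ) : ℂ) - t * (B.coeff 0 : ℤ) ≠ 0 ∧
      ((A.coeff k - A.coeff 0 * A.coeff (A.natDegree - k) : ℤ) : ℂ) -
        t * ((B.coeff k - B.coeff 0 * A.coeff (A.natDegree - k) : ℤ) : ℂ) ≠ 0) :
    Real.goldenRatio ^ g.natDegree ≤ MM (pcomp g A B) ^ 2 := by
  set m := A.natDegree with hm
  have hinj : Function.Injective (Int.castRingHom ℂ) := (Int.castRingHom ℂ).injective_int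
  set A' := A.map (Int.castRingHom ℂ) with hA'
  set B' := B.map (Int.castRingHom ℂ) with hB'
  set T := (g.map (Int.castRingHom ℂ)).roots with hTdef
  set P : ℂ → ℂ[X] := fun t => A' - C t * B' with hP
  have hA'm : A'.Monic := hA.map _
  have hA'd : A'.natDegree = m := natDegree_map_eq_of_injective hinj A
  have hdeg : ∀ t, (C t * B').degree < A'.degree := by
    intro t
    rw [degree_eq_natDegree hA'm.ne_zero, hA'd, degree_lt_iff_coeff_zero]
    intro j hj
    rw [coeff_C_mul, hB', coeff_map, hB j (by omega), map_zero, mul_zero]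
  have hPm : ∀ t, (P t).Monic := fun t => hA'm.sub_of_left (hdeg t)
  have hPd : ∀ t, (P t).natDegree = m := by
    intro t
    rw [← hA'd]
    exact natDegree_eq_of_degree_eq (degree_sub_eq_left_of_degree_lt (hdeg t))
  have hPc : ∀ t j, (P t).coeff j = (A.coeff j : ℂ) - t * (B.coeff j : ℂ) := by
    intro t j
    rw [hP]
    simp only [coeff_sub, coeff_C_mul, hA', hB', coeff_map, eq_intCast]
  have hconj : ∀ t j, j ≤ k → starRingEnd ℂ ((P t).coeff (m - j)) = (A.coeff (m - j) : ℂ) := by
    intro t j hj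
    rw [hPc, hB (m - j) (by omega)]
    simp
  have hdef : ∀ t j, j ≤ k → defect (P t) j =
      ((A.coeff j - A.coeff 0 * A.coeff (m - j) : ℤ) : ℂ) -
        t * ((B.coeff j - B.coeff 0 * A.coeff (m - j) : ℤ) : ℂ) := by
    intro t j hj
    rw [defect, hPd, hconj t j hj, hPc, hPc]
    push_cast
    ring
  have hcard : Multiset.card T = g.natDegree := by
    rw [hTdef, ← natDegree_map_eq_of_injective hinj g]
    exact ((IsAlgClosed.splits (g.map (Int.castRingHom ℂ))).natDegree_eq_card_roots).symm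
  have ha : (1 : ℝ) ≤ |(g.leadingCoeff : ℝ)| := by
    have := Int.one_le_abs (leadingCoeff_ne_zero.2 hg)
    exact_mod_cast this
  rw [MM_pcomp, ← hcard]
  refine prod_bound T _ (fun t => ‖defect (P t) k‖) (fun t => ‖(P t).coeff 0‖) ?_ ?_ ?_ ?_ ha ?_ ?_
  · intro t _
    exact mahlerMeasure_pos_of_ne_zero (hPm t).ne_zero
  · intro t ht
    apply norm_pos_iff.2
    rw [hdef t k le_rfl]
    exact (hT t ht).2
  · intro t ht
    apply norm_pos_iff.2
    rw [hPc]
    exact (hT t ht).1
  · intro t ht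
    apply one_poly (hPm t)
    · rw [hPc]
      exact (hT t ht).1
    · rw [hPd]
      exact hkm
    · intro j hj
      rw [hdef t j hj.le]
      rcases Nat.eq_zero_or_pos j with rfl | hj0
      · have h1 : A.coeff m = 1 := hA
        have h2 : B.coeff m = 0 := hB m (by omega)
        rw [Nat.sub_zero, h1]
        simp
      · obtain ⟨h1, h2⟩ := hlt j hj0 hj
        rw [← h1, ← h2]
        simp
    · rw [hdef t k le_rfl]
      exact (hT t ht).2
  · simp only [hdef _ k le_rfl]
    exact one_le_form hg _ _ fun t ht => (hT t ht).2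
  · simp only [hPc]
    exact one_le_form hg _ _ fun t ht => (hT t ht).1

end Pool.Agent.Run7.h80.Comp
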