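import Mathlib

/-!
# Removing rational zeros of an integer polynomial
-/

set_option autoImplicit false

open Polynomial

namespace Pool.Agent.Run7.h80.Comp

/-- the linear polynomial with the rational zero `c` -/
noncomputable def lin (c : ℚ) : ℤ[X] := C (c.den : ℤ) * X - C c.num

lemma lin_coeff_one (c : ℚ) : (lin c).coeff 1 = c.den := by
  rw [lin, coeff_sub, coeff_C_mul, coeff_X_one, coeff_C, if_neg one_ne_zero]
  ring

lemma lin_coeff_zero (c : ℚ) : (lin c).coeff 0 = -c.num := by
  rw [lin, coeff_sub, coeff_C_mul, coeff_X_zero, coeff_C_zero]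
  ring

lemma lin_ne_zero (c : ℚ) : lin c ≠ 0 := by
  intro h
  have h1 := lin_coeff_one c
  rw [h, coeff_zero] at h1
  have := c.den_pos
  omega

lemma lin_natDegree (c : ℚ) : (lin c).natDegree = 1 := by
  rw [lin, sub_eq_add_neg, ← C_neg]
  exact natDegree_linear (by exact_mod_cast c.den_ne_zero)

lemma lin_leadingCoeff (c : ℚ) : (lin c).leadingCoeff = c.den := by
  rw [leadingCoeff, lin_natDegree, lin_coeff_one]

lemma lin_primitive (c : ℚ) : (lin c).IsPrimitive := by
  intro r hr
  have h1 : r ∣ (c.den : ℤ) := by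
    rw [← lin_coeff_one]
    exact (C_dvd_iff_dvd_coeff r _).1 hr 1
  have h2 : r ∣ c.num := by
    have := (C_dvd_iff_dvd_coeff r _).1 hr 0
    rw [lin_coeff_zero] at this
    exact (dvd_neg).1 this
  have h3 : IsCoprime c.num (c.den : ℤ) := by
    rw [Int.isCoprime_iff_nat_coprime]
    simpa using c.reduced
  exact h3.isUnit_of_dvd' h2 h1

lemma lin_map (c : ℚ) : (lin c).map (Int.castRingHom ℚ) = C (c.den : ℚ) * (X - C c) := by
  rw [lin, Polynomial.map_sub, Polynomial.map_mul, map_C, map_X, map_C, mul_sub, ← C_mul]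
  congr 2
  simp only [eq_intCast]
  rw [mul_comm]
  exact (Rat.mul_den_eq_num c).symm

lemma lin_dvd {g : ℤ[X]} {c : ℚ} (h : (g.map (Int.castRingHom ℚ)).IsRoot c) : lin c ∣ g := by
  rw [IsPrimitive.Int.dvd_iff_map_cast_dvd_map_cast _ _ (lin_primitive c), lin_map]
  have hu : IsUnit (C (c.den : ℚ)) := isUnit_C.2 (by
    rw [isUnit_iff_ne_zero]
    exact_mod_cast c.den_ne_zero)
  rw [hu.mul_left_dvd, dvd_iff_isRoot]
  exact h

lemma lin_roots (c : ℚ) : ((lin c).map (Int.castRingHom ℂ)).roots = {(c : ℂ)} := by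
  have h0 : (c.den : ℂ) ≠ 0 := by exact_mod_cast c.den_ne_zero
  have h1 : (lin c).map (Int.castRingHom ℂ) = C (c.den : ℂ) * X - C (c.num : ℂ) := by
    simp [lin]
  rw [h1, roots_C_mul_X_sub_C _ h0]
  congr 1
  rw [Rat.cast_def, div_eq_inv_mul]

/-- removal of the zeros in a finite set of rational numbers -/
theorem strip (s : Finset ℚ) (n : ℕ) : ∀ g : ℤ[X], g ≠ 0 → g.natDegree = n →
    ∃ g₁ g₂ : ℤ[X], g = g₁ * g₂ ∧ g₁ ≠ 0 ∧ g₂ ≠ 0 ∧
      (g₂.map (Int.castRingHom ℂ)).roots =
        (g.map (Int.castRingHom ℂ)).roots.filter (fun z => ∀ c ∈ s, z ≠ (c : ℂ)) := by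
  classical
  induction n using Nat.strong_induction_on with
  | _ n ih =>
    intro g hg hn
    by_cases h : ∃ c ∈ s, (c : ℂ) ∈ (g.map (Int.castRingHom ℂ)).roots
    · obtain ⟨c, hc, hr⟩ := h
      have h1 : (g.map (Int.castRingHom ℚ)).IsRoot c := by
        have h2 := (mem_roots'.1 hr).2
        have h3 : g.map (Int.castRingHom ℂ) =
            (g.map (Int.castRingHom ℚ)).map (algebraMap ℚ ℂ) := by
          rw [Polynomial.map_map]
          congr 1
        have h4 : (c : ℂ) = algebraMap ℚ ℂ c := by simp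
        rw [h3, h4] at h2
        exact (isRoot_map_iff (algebraMap ℚ ℂ).injective).1 h2
      obtain ⟨g', hg'⟩ := lin_dvd h1
      have hg'0 : g' ≠ 0 := by
        rintro rfl
        rw [mul_zero] at hg'
        exact hg hg'
      have hd : g.natDegree = 1 + g'.natDegree := by
        rw [hg', natDegree_mul (lin_ne_zero c) hg'0, lin_natDegree]
      obtain ⟨g₁, g₂, e, h5, h6, h7⟩ := ih g'.natDegree (by omega) g' hg'0 rfl
      refine ⟨lin c * g₁, g₂, by rw [hg', e]; ring, mul_ne_zero (lin_ne_zero c) h5, h6, ?_⟩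
      have hne : g.map (Int.castRingHom ℂ) ≠ 0 :=
        (Polynomial.map_ne_zero_iff (Int.castRingHom ℂ).injective_int).2 hg
      rw [h7]
      conv_rhs => rw [hg', Polynomial.map_mul]
      rw [hg', Polynomial.map_mul] at hne
      rw [roots_mul hne, lin_roots, Multiset.filter_add]
      have h8 : Multiset.filter (fun z : ℂ => ∀ c ∈ s, z ≠ (c : ℂ)) {(c : ℂ)} = 0 := by
        rw [Multiset.filter_eq_nil]
        intro a ha hcon
        rw [Multiset.mem_singleton] at ha
        exact hcon c hc ha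
      rw [h8, zero_add]
    · push Not at h
      refine ⟨1, g, (one_mul g).symm, one_ne_zero, hg, ?_⟩
      symm
      rw [Multiset.filter_eq_self]
      rintro z hz c hc rfl
      exact h c hc hz

end Pool.Agent.Run7.h80.Comp
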