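import Mathlib
import Pool.Agent.Run7.h80.Comp.Pencil
import Pool.Agent.Run7.h80.Comp.Strip

/-!
# Mahler measure of composite polynomials
-/

set_option autoImplicit false

open Polynomial

namespace Pool.Agent.Run7.h80.Comp

/-- the number of complex zeros of `g`, with multiplicity, which are not in `s` -/
noncomputable def outside (g : ℤ[X]) (s : Finset ℚ) : ℕ :=
  Multiset.card (((g.map (Int.castRingHom ℂ)).roots).filter fun z => ∀ c ∈ s, z ≠ (c : ℂ))

lemma card_roots_eq (g : ℤ[X]) :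
    Multiset.card (g.map (Int.castRingHom ℂ)).roots = g.natDegree := by
  rw [← natDegree_map_eq_of_injective (Int.castRingHom ℂ).injective_int g]
  exact ((IsAlgClosed.splits (g.map (Int.castRingHom ℂ))).natDegree_eq_card_roots).symm

lemma outside_le (g : ℤ[X]) (s : Finset ℚ) : outside g s ≤ g.natDegree := by
  rw [← card_roots_eq, outside]
  exact Multiset.card_le_card (Multiset.filter_le _ _)

/-- the hypotheses of the pencil inequality -/
structure Pen (A B : ℤ[X]) (k : ℕ) : Prop where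
  monic : A.Monic
  kpos : 0 < k
  kle : k ≤ A.natDegree
  top : ∀ j, A.natDegree - k ≤ j → B.coeff j = 0
  low : ∀ j, 0 < j → j < k → A.coeff j = A.coeff 0 * A.coeff (A.natDegree - j) ∧
      B.coeff j = B.coeff 0 * A.coeff (A.natDegree - j)

/-- the value `t` is not exceptional -/
def Good (A B : ℤ[X]) (k : ℕ) (t : ℂ) : Prop :=
  ((A.coeff 0 : ℤ) : ℂ) - t * (B.coeff 0 : ℤ) ≠ 0 ∧
      ((A.coeff k - A.coeff 0 * A.coeff (A.natDegree - k) : ℤ) : ℂ) -
        t * ((B.coeff k - B.coeff 0 * A.coeff (A.natDegree - k) : ℤ) : ℂ) ≠ 0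

lemma pcomp_ne_zero {A B : ℤ[X]} {k : ℕ} (h : Pen A B k) {g : ℤ[X]} (hg : g ≠ 0) :
    pcomp g A B ≠ 0 := by
  intro h0
  have h1 := MM_pcomp g A B
  rw [h0] at h1
  have h2 : MM 0 = 0 := by simp [MM]
  rw [h2] at h1
  have h3 : 0 < |(g.leadingCoeff : ℝ)| := by
    have : g.leadingCoeff ≠ 0 := leadingCoeff_ne_zero.2 hg
    positivity
  have h4 : 0 < ((g.map (Int.castRingHom ℂ)).roots.map fun t =>
      (A.map (Int.castRingHom ℂ) - C t * B.map (Int.castRingHom ℂ)).mahlerMeasure).prod := by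
    apply Multiset.prod_pos
    intro x hx
    obtain ⟨t, _, rfl⟩ := Multiset.mem_map.1 hx
    apply mahlerMeasure_pos_of_ne_zero
    intro h5
    have h6 := congrArg (fun q : ℂ[X] => q.coeff A.natDegree) h5
    simp only [coeff_sub, coeff_C_mul, coeff_map, coeff_zero] at h6
    have h7 : A.coeff A.natDegree = 1 := h.monic
    rw [h7, h.top A.natDegree (Nat.sub_le _ _)] at h6
    simp at h6
  have := mul_pos h3 h4
  linarith

/-- the pencil inequality with exceptional values -/
theorem pencil_outside {A B : ℤ[X]} {k : ℕ} (h : Pen A B k) (s : Finset ℚ)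
    (hs : ∀ t : ℂ, (∀ c ∈ s, t ≠ (c : ℂ)) → Good A B k t) {g : ℤ[X]} (hg : g ≠ 0) :
    Real.goldenRatio ^ outside g s ≤ MM (pcomp g A B) ^ 2 := by
  obtain ⟨g₁, g₂, e, h1, h2, h3⟩ := strip s g.natDegree g hg rfl
  have h4 : outside g s = g₂.natDegree := by
    rw [outside, ← h3, card_roots_eq]
  have h5 := pencil h.monic h.kpos h.kle h.top h.low h2 (by
    intro t ht
    apply hs
    rw [h3] at ht
    exact (Multiset.mem_filter.1 ht).2)
  rw [h4]
  refine h5.trans ?_
  have h6 : MM (pcomp g A B) = MM (pcomp g₁ A B) * MM (pcomp g₂ A B) := by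
    rw [e, pcomp_mul, MM_mul]
  have h7 := one_le_MM (pcomp_ne_zero h h1)
  have h8 := one_le_MM (pcomp_ne_zero h h2)
  have h9 : MM (pcomp g₂ A B) ≤ MM (pcomp g A B) := by
    rw [h6]
    exact le_mul_of_one_le_left (by linarith) h7
  exact pow_le_pow_left₀ (by linarith) h9 2

lemma goldenRatio_lt_two' : Real.goldenRatio < 2 := Real.goldenRatio_lt_two

/-- large leading coefficients -/
lemma golden_of_large {n : ℕ} {x : ℝ} (h : (2 : ℝ) ^ n ≤ x) : Real.goldenRatio ^ n ≤ x ^ 2 := by
  have h1 : (1 : ℝ) ≤ 2 ^ n := one_le_pow₀ (by norm_num)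
  have h2 : Real.goldenRatio ^ n ≤ 2 ^ n :=
    pow_le_pow_left₀ Real.goldenRatio_pos.le Real.goldenRatio_lt_two.le n
  nlinarith

lemma golden_pow_mono {i j : ℕ} (h : i ≤ j) : Real.goldenRatio ^ i ≤ Real.goldenRatio ^ j :=
  pow_le_pow_right₀ Real.one_lt_goldenRatio.le h

/-- change of sign of the pencil -/
lemma MM_pcomp_neg (g A B : ℤ[X]) : MM (pcomp g (-A) (-B)) = MM (pcomp g A B) := by
  have h1 : pcomp g (-A) (-B) = (-1) ^ g.natDegree * pcomp g A B := by
    rw [pcomp, pcomp, Finset.mul_sum]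
    refine Finset.sum_congr rfl fun j hj => ?_
    have hj' : j ≤ g.natDegree := by
      have := Finset.mem_range.1 hj
      omega
    have e : (-1 : ℤ[X]) ^ g.natDegree = (-1) ^ j * (-1) ^ (g.natDegree - j) := by
      rw [← pow_add]
      congr 1
      omega
    rw [e, neg_pow A, neg_pow B]
    ring
  rw [h1, MM_mul]
  have h2 : MM ((-1) ^ g.natDegree) = 1 := by
    rcases neg_one_pow_eq_or ℤ[X] g.natDegree with h | h
    · rw [h]
      simp [MM]
    · rw [h, MM, Polynomial.map_neg, Polynomial.map_one]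
      have : (-1 : ℂ[X]) = C (-1) := by simp
      rw [this, mahlerMeasure_const]
      simp
  rw [h2, one_mul]

end Pool.Agent.Run7.h80.Comp
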