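import Mathlib
import Pool.Agent.Run7.h80.Comp.Main

/-!
# Composite polynomials: the counting theorem
-/

set_option autoImplicit false

open Polynomial

namespace Pool.Agent.Run7.h80.Comp

lemma pen_const {A : ℤ[X]} (hA : A.Monic) {b : ℤ} (hb : b = 1 ∨ b = -1) (hm : 0 < A.natDegree)
    (hnot : A ≠ X ^ A.natDegree + C (A.coeff 0)) :
    ∃ (k : ℕ) (s : Finset ℚ), Pen A (C b) k ∧ s.card ≤ 2 ∧ ((b * A.coeff 0 : ℤ) : ℚ) ∈ s ∧
      ∀ t : ℂ, (∀ c ∈ s, t ≠ (c : ℂ)) → Good A (C b) k t := by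
  classical
  set m := A.natDegree with hmdef
  have hex : ∃ j, 0 < j ∧ j < m ∧ (A.coeff j ≠ 0 ∨ A.coeff (m - j) ≠ 0) := by
    by_contra hcon
    push Not at hcon
    apply hnot
    ext j
    rw [coeff_add, coeff_X_pow, coeff_C]
    rcases lt_trichotomy j m with h | h | h
    · rcases Nat.eq_zero_or_pos j with rfl | h0
      · rw [if_neg (by omega), if_pos rfl, zero_add]
      · rw [(hcon j h0 h).1, if_neg (by omega), if_neg (by omega), add_zero]
    · subst h
      rw [if_pos rfl, if_neg (by omega), add_zero]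
      exact hA
    · rw [coeff_eq_zero_of_natDegree_lt h, if_neg (by omega), if_neg (by omega), add_zero]
  have hbb : b * b = 1 := by rcases hb with rfl | rfl <;> norm_num
  have hbb' : (b : ℂ) * b = 1 := by exact_mod_cast hbb
  set k := Nat.find hex with hk
  obtain ⟨hk0, hkm, hkc⟩ := Nat.find_spec hex
  rw [← hk] at hk0 hkm hkc
  have hmin : ∀ j, 0 < j → j < k → A.coeff j = 0 ∧ A.coeff (m - j) = 0 := by
    intro j hj0 hjk
    have h1 := Nat.find_min hex hjk
    push Not at h1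
    exact h1 hj0 (by omega)
  have hCb : ∀ j, 0 < j → (C b : ℤ[X]).coeff j = 0 := fun j hj => by
    rw [coeff_C, if_neg (by omega)]
  have hpen : Pen A (C b) k :=
    { monic := hA
      kpos := hk0
      kle := hkm.le
      top := fun j hj => hCb j (by omega)
      low := fun j h0 hj => by
        obtain ⟨h1, h2⟩ := hmin j h0 hj
        rw [← hmdef, h1, h2, hCb j h0]
        simp }
  set r : ℚ := -((b : ℚ) * ((A.coeff k - A.coeff 0 * A.coeff (m - k) : ℤ) : ℚ) /
    (A.coeff (m - k) : ℚ)) with hr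
  refine ⟨k, {((b * A.coeff 0 : ℤ) : ℚ), r}, hpen, Finset.card_le_two, by simp, ?_⟩
  intro t ht
  have ht1 := ht ((b * A.coeff 0 : ℤ) : ℚ) (by simp)
  have ht2 := ht r (by simp)
  refine ⟨?_, ?_⟩
  · intro h
    apply ht1
    rw [coeff_C_zero] at h
    have h2 : t = (b : ℂ) * (A.coeff 0 : ℂ) := by
      have : t = t * ((b : ℂ) * b) := by rw [hbb', mul_one]
      rw [this]
      linear_combination (-(b : ℂ)) * h
    rw [h2]
    push_cast
    ring
  · rw [hCb k hk0, coeff_C_zero, ← hmdef]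
    intro h
    by_cases h0 : A.coeff (m - k) = 0
    · rw [h0] at h
      simp only [mul_zero, sub_zero, Int.cast_zero] at h
      rcases hkc with h1 | h1
      · apply h1
        exact_mod_cast h
      · exact h1 h0
    · apply ht2
      have h0' : (A.coeff (m - k) : ℂ) ≠ 0 := by exact_mod_cast h0
      rw [hr]
      push_cast
      rw [eq_comm, neg_eq_iff_eq_neg, div_eq_iff h0']
      push_cast at h
      linear_combination (b : ℂ) * h - t * (A.coeff (m - k) : ℂ) * hbb'

lemma pcomp_one_comp (g h : ℤ[X]) : pcomp g h 1 = g.comp h := by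
  rw [comp, eval₂_eq_sum_range, pcomp]
  refine Finset.sum_congr rfl fun j _ => ?_
  rw [one_pow, mul_one]
  rfl

lemma leadingCoeff_comp' (g h : ℤ[X]) (hd : h.natDegree ≠ 0) :
    (g.comp h).leadingCoeff = g.leadingCoeff * h.leadingCoeff ^ g.natDegree :=
  leadingCoeff_comp hd

lemma large_lead {g h : ℤ[X]} (hg : g ≠ 0) (hd : h.natDegree ≠ 0) (h2 : 2 ≤ |h.leadingCoeff|) :
    (2 : ℝ) ^ g.natDegree ≤ MM (g.comp h) := by
  refine le_trans ?_ (lead_le_MM _)
  rw [leadingCoeff_comp' g h hd]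
  push_cast
  rw [abs_mul, abs_pow]
  have h1 : (1 : ℝ) ≤ |(g.leadingCoeff : ℝ)| := by
    have := Int.one_le_abs (leadingCoeff_ne_zero.2 hg)
    exact_mod_cast this
  have h3 : (2 : ℝ) ≤ |(h.leadingCoeff : ℝ)| := by exact_mod_cast h2
  have h4 : (2 : ℝ) ^ g.natDegree ≤ |(h.leadingCoeff : ℝ)| ^ g.natDegree :=
    pow_le_pow_left₀ (by norm_num) h3 _
  calc (2 : ℝ) ^ g.natDegree ≤ |(h.leadingCoeff : ℝ)| ^ g.natDegree := h4
    _ ≤ |(g.leadingCoeff : ℝ)| * |(h.leadingCoeff : ℝ)| ^ g.natDegree :=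
      le_mul_of_one_le_left (by positivity) h1

lemma natDegree_ne_zero {h : ℤ[X]} (hh : ∀ (a c : ℤ) (m : ℕ), h ≠ C a * X ^ m + C c) :
    h.natDegree ≠ 0 := by
  intro h0
  apply hh 0 (h.coeff 0) 0
  rw [C_0, zero_mul, zero_add]
  exact eq_C_of_natDegree_eq_zero h0

/-- **composite polynomials: the counting theorem** -/
theorem comp_bound (h : ℤ[X]) (hh : ∀ (a c : ℤ) (m : ℕ), h ≠ C a * X ^ m + C c) :
    ∃ s : Finset ℚ, s.card ≤ 2 ∧ (h.coeff 0 : ℚ) ∈ s ∧
      ∀ g : ℤ[X], g ≠ 0 → Real.goldenRatio ^ outside g s ≤ MM (g.comp h) ^ 2 := by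
  have hd := natDegree_ne_zero hh
  have hlc : h.leadingCoeff ≠ 0 := by
    intro h0
    rw [leadingCoeff_eq_zero] at h0
    rw [h0] at hd
    simp at hd
  by_cases habs : 2 ≤ |h.leadingCoeff|
  · refine ⟨{(h.coeff 0 : ℚ)}, by simp, by simp, fun g hg => ?_⟩
    exact (golden_pow_mono (outside_le g _)).trans (golden_of_large (large_lead hg hd habs))
  have h1 : |h.leadingCoeff| = 1 := by
    have := Int.one_le_abs hlc
    omega
  have e1 : ∀ g : ℤ[X], pcomp g h 1 = g.comp h := by
    intro g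
    exact pcomp_one_comp g h
  rcases (abs_eq (zero_le_one' ℤ)).1 h1 with h2 | h2
  · have hmon : h.Monic := h2
    obtain ⟨k, s, hp, hs, hs0, hgood⟩ := pen_const hmon (b := 1) (Or.inl rfl) (by omega) (by
      have := hh 1 (h.coeff 0) h.natDegree
      rwa [C_1, one_mul] at this)
    refine ⟨s, hs, by simpa using hs0, fun g hg => ?_⟩
    have := pencil_outside hp s hgood hg
    rwa [C_1, e1] at this
  · have hmon : (-h).Monic := by
      rw [Monic, leadingCoeff_neg, h2]
      norm_num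
    obtain ⟨k, s, hp, hs, hs0, hgood⟩ := pen_const hmon (b := -1) (Or.inr rfl)
      (by rw [natDegree_neg]; omega) (by
      intro h3
      apply hh (-1) (h.coeff 0) h.natDegree
      have h4 := congrArg (fun q => -q) h3
      simp only [neg_neg, natDegree_neg, coeff_neg, C_neg] at h4
      conv_lhs => rw [h4]
      rw [C_neg, C_1]
      ring)
    refine ⟨s, hs, ?_, fun g hg => ?_⟩
    · rw [coeff_neg] at hs0
      simpa using hs0
    · have h5 := pencil_outside hp s hgood hg
      have h6 := MM_pcomp_neg g h 1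
      have e2 : (C (-1) : ℤ[X]) = -1 := by simp
      rw [e2, h6, e1] at h5
      exact h5

end Pool.Agent.Run7.h80.Comp
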