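import Mathlib
import Pool.Agent.Run7.h80.Comp.CompA

/-!
# Composite polynomials: the gap
-/

set_option autoImplicit false

open Polynomial

namespace Pool.Agent.Run7.h80.Comp

lemma MM_neg (f : ℤ[X]) : MM (-f) = MM f := by
  have e : -f = (-1) * f := by ring
  rw [e, MM_mul]
  have : MM (-1) = 1 := by
    rw [MM, Polynomial.map_neg, Polynomial.map_one]
    have : (-1 : ℂ[X]) = C (-1) := by simp
    rw [this, mahlerMeasure_const]
    simp
  rw [this, one_mul]

lemma MM_X_pow (n : ℕ) : MM (X ^ n) = 1 := by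
  have h1 : MM X = 1 := by
    have := mahlerMeasure_X_sub_C 0
    rw [C_0, sub_zero, norm_zero] at this
    rw [MM, map_X, this]
    simp
  induction n with
  | zero =>
    rw [pow_zero, MM, Polynomial.map_one, mahlerMeasure_one]
  | succ n ih =>
    rw [pow_succ, MM_mul, ih, h1, one_mul]

lemma coeff_zero_le_MM (f : ℤ[X]) : |(f.coeff 0 : ℝ)| ≤ MM f := by
  have h1 := norm_coeff_le_choose_mul_mahlerMeasure 0 (f.map (Int.castRingHom ℂ))
  rw [coeff_map, eq_intCast, Complex.norm_intCast, Nat.choose_zero_right, Nat.cast_one,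
    one_mul] at h1
  exact h1

lemma lt_two_of_sq {x : ℝ} (h : x ^ 2 < Real.goldenRatio) : x < 2 := by
  have h1 := Real.goldenRatio_lt_two
  nlinarith

lemma abs_eq_one_of {n : ℤ} (h0 : n ≠ 0) {x : ℝ} (h : |(n : ℝ)| ≤ x) (hx : x < 2) : |n| = 1 := by
  have h1 := Int.one_le_abs h0
  have h2 : (|n| : ℝ) < 2 := by linarith
  have h3 : |n| < 2 := by exact_mod_cast h2
  omega

lemma smyth_phi_monic {f : ℤ[X]} (hf : f.Monic) (h0 : f.coeff 0 ≠ 0)
    (hM : MM f ^ 2 < Real.goldenRatio) :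
    |f.coeff 0| = 1 ∧ (f.reverse = f ∨ f.reverse = -f) := by
  have h2 := lt_two_of_sq hM
  have h3 := abs_eq_one_of h0 (coeff_zero_le_MM f) h2
  refine ⟨h3, ?_⟩
  have hsq : f.coeff 0 * f.coeff 0 = 1 := by
    rcases (abs_eq (zero_le_one' ℤ)).1 h3 with h | h <;> rw [h] <;> norm_num
  have key : ∀ j ≤ f.natDegree, f.coeff j = f.coeff 0 * f.coeff (f.natDegree - j) := by
    by_contra hcon
    push Not at hcon
    have hex : ∃ j, j ≤ f.natDegree ∧ f.coeff j ≠ f.coeff 0 * f.coeff (f.natDegree - j) := hcon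
    classical
    set k := Nat.find hex with hk
    obtain ⟨hk1, hk2⟩ := Nat.find_spec hex
    rw [← hk] at hk1 hk2
    have hk0 : 0 < k := by
      rw [Nat.pos_iff_ne_zero]
      intro h
      apply hk2
      rw [h, Nat.sub_zero]
      have : f.coeff f.natDegree = 1 := hf
      rw [this, mul_one]
    have hmin : ∀ j, j < k → f.coeff j = f.coeff 0 * f.coeff (f.natDegree - j) := by
      intro j hj
      have h1 := Nat.find_min hex hj
      push Not at h1
      exact h1 (by omega)
    have h5 := pencil (B := 0) (g := X) hf hk0 hk1 (fun j _ => coeff_zero j)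
      (fun j _ hj => ⟨hmin j hj, by simp⟩) X_ne_zero (by
        intro t _
        simp only [coeff_zero, Int.cast_zero, mul_zero, sub_zero, zero_mul]
        refine ⟨by exact_mod_cast h0, ?_⟩
        have : f.coeff k - f.coeff 0 * f.coeff (f.natDegree - k) ≠ 0 := sub_ne_zero.2 hk2
        exact_mod_cast this)
    have h6 : pcomp X f 0 = f := by
      rw [pcomp, natDegree_X, Finset.sum_range_succ, Finset.sum_range_one]
      simp
    rw [h6, natDegree_X, pow_one] at h5
    linarith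
  have hrev : f.reverse = C (f.coeff 0) * f := by
    ext j
    rw [coeff_reverse, coeff_C_mul]
    rcases le_or_gt j f.natDegree with h | h
    · rw [revAt_le h, key j h, ← mul_assoc, hsq, one_mul]
    · rw [revAt_eq_self_of_lt h, coeff_eq_zero_of_natDegree_lt h, mul_zero]
  rcases (abs_eq (zero_le_one' ℤ)).1 h3 with h | h
  · left
    rw [hrev, h, C_1, one_mul]
  · right
    rw [hrev, h, C_neg, C_1]
    ring

/-- the weak form of Smyth's theorem -/
lemma smyth_phi {f : ℤ[X]} (h0 : f.coeff 0 ≠ 0) (hM : MM f ^ 2 < Real.goldenRatio) :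
    |f.leadingCoeff| = 1 ∧ |f.coeff 0| = 1 ∧ (f.reverse = f ∨ f.reverse = -f) := by
  have h2 := lt_two_of_sq hM
  have hf : f ≠ 0 := by
    rintro rfl
    simp at h0
  have h3 := abs_eq_one_of (leadingCoeff_ne_zero.2 hf) (lead_le_MM f) h2
  refine ⟨h3, ?_⟩
  rcases (abs_eq (zero_le_one' ℤ)).1 h3 with h | h
  · exact smyth_phi_monic h h0 hM
  · have h4 : (-f).Monic := by
      rw [Monic, leadingCoeff_neg, h]
      norm_num
    have h5 := smyth_phi_monic h4 (by rwa [coeff_neg, neg_ne_zero]) (by rwa [MM_neg])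
    rw [coeff_neg, abs_neg, reverse_neg] at h5
    refine ⟨h5.1, ?_⟩
    rcases h5.2 with h6 | h6
    · left
      exact neg_injective h6
    · right
      exact neg_injective h6

lemma MM_binomial {n : ℕ} (hn : 0 < n) {a b : ℤ} (ha : |a| = 1) (hb : |b| = 1) :
    MM (C a * X ^ n + C b) = 1 := by
  have ha' : ‖(a : ℂ)‖ = 1 := by
    rw [Complex.norm_intCast]
    exact_mod_cast ha
  have hb' : ‖(b : ℂ)‖ = 1 := by
    rw [Complex.norm_intCast]
    exact_mod_cast hb
  have ha0 : (a : ℂ) ≠ 0 := by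
    intro h
    rw [h] at ha'
    simp at ha'
  have e : (C a * X ^ n + C b : ℤ[X]).map (Int.castRingHom ℂ) = C (a : ℂ) * X ^ n + C (b : ℂ) := by
    simp
  rw [MM, e, mahlerMeasure_eq_leadingCoeff_mul_prod_roots]
  have hl : (C (a : ℂ) * X ^ n + C (b : ℂ)).leadingCoeff = (a : ℂ) := by
    have h1 : (C (a : ℂ) * X ^ n + C (b : ℂ)).natDegree = n := by
      rw [natDegree_add_C, natDegree_C_mul_X_pow n _ ha0]
    rw [leadingCoeff, h1, coeff_add, coeff_C_mul, coeff_X_pow, if_pos rfl, coeff_C,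
      if_neg (by omega), mul_one, add_zero]
  rw [hl, ha', one_mul]
  apply Multiset.prod_eq_one
  intro x hx
  obtain ⟨z, hz, rfl⟩ := Multiset.mem_map.1 hx
  have h1 := (mem_roots'.1 hz).2
  rw [IsRoot, eval_add, eval_mul, eval_C, eval_pow, eval_X, eval_C] at h1
  have h2 : ‖z‖ ^ n = 1 := by
    have h3 : (a : ℂ) * z ^ n = -(b : ℂ) := by linear_combination h1
    have h4 := congrArg norm h3
    rw [norm_mul, ha', one_mul, norm_pow, norm_neg, hb'] at h4
    exact h4
  have h3 : ‖z‖ = 1 := (pow_eq_one_iff_of_nonneg (norm_nonneg z) (by omega)).1 h2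
  rw [h3, max_self]

/-- the case of two exceptional values -/
lemma two_exceptional {h : ℤ[X]} (hd : h.natDegree ≠ 0) {r : ℤ} (hr : r ≠ h.coeff 0)
    (h1 : MM (h - C (h.coeff 0)) ^ 2 < Real.goldenRatio)
    (h2 : MM (h - C r) ^ 2 < Real.goldenRatio) :
    MM (h - C (h.coeff 0)) = 1 ∧ MM (h - C r) = 1 := by
  set H := h - C (h.coeff 0) with hH
  have hHd : H.natDegree = h.natDegree := natDegree_sub_C
  have hH0 : H ≠ 0 := by
    intro h0
    rw [h0, natDegree_zero] at hHd
    exact hd hHd.symm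
  have hHc : H.coeff 0 = 0 := by rw [hH, coeff_sub, coeff_C_zero, sub_self]
  set l := H.natTrailingDegree with hl
  obtain ⟨R, hR⟩ : X ^ l ∣ H := by
    rw [X_pow_dvd_iff]
    intro d hd'
    exact coeff_eq_zero_of_lt_natTrailingDegree hd'
  have hl0 : 0 < l := by
    rw [Nat.pos_iff_ne_zero]
    intro h0
    have h3 : H.coeff l ≠ 0 := mt trailingCoeff_eq_zero.1 hH0
    rw [h0] at h3
    exact h3 hHc
  have hR0 : R.coeff 0 ≠ 0 := by
    have h3 : H.coeff l ≠ 0 := mt trailingCoeff_eq_zero.1 hH0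
    rw [hR, coeff_X_pow_mul', if_pos le_rfl, Nat.sub_self] at h3
    exact h3
  have hRne : R ≠ 0 := by
    rintro rfl
    simp at hR0
  have hXl : MM (X ^ l) = 1 := MM_X_pow l
  have hMR : MM R = MM H := by rw [hR, MM_mul, hXl, one_mul]
  set m := h.natDegree with hm
  have hRd : l + R.natDegree = m := by
    rw [← hHd, hR, natDegree_mul (pow_ne_zero _ X_ne_zero) hRne, natDegree_X_pow]
  set e := h.coeff 0 - r with he
  have he0 : e ≠ 0 := sub_ne_zero.2 hr.symm
  set P := h - C r with hP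
  have hPd : P.natDegree = m := natDegree_sub_C
  have hPR : P = X ^ l * R + C e := by
    rw [← hR, hH, hP, he, C_sub]
    ring
  have hPc : P.coeff 0 = e := by rw [hP, coeff_sub, coeff_C_zero]
  obtain ⟨_, a2, a3⟩ := smyth_phi (f := P) (by rwa [hPc]) h2
  obtain ⟨_, b2, b3⟩ := smyth_phi (f := R) hR0 (by rwa [hMR])
  rw [hPc] at a2
  have hPrev : P.reverse = R.reverse + C e * X ^ m := by
    rw [reverse, hPd]
    conv_lhs => rw [hPR]
    rw [reflect_add, reflect_C, ← hRd, reflect_mul _ _ (natDegree_X_pow_le l) le_rfl]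
    congr 1
    have : reflect l (X ^ l : ℤ[X]) = 1 := by
      have h3 := reflect_C_mul_X_pow l l (c := (1 : ℤ))
      rw [C_1, one_mul, one_mul, revAt_le le_rfl, Nat.sub_self, pow_zero] at h3
      exact h3
    rw [this, one_mul, reverse]
  have hd1 : ∃ d1 : ℤ, |d1| = 1 ∧ P.reverse = C d1 * P := by
    rcases a3 with h3 | h3
    · exact ⟨1, by simp, by rw [h3, C_1, one_mul]⟩
    · exact ⟨-1, by simp, by rw [h3, C_neg, C_1]; ring⟩
  have hd2 : ∃ d2 : ℤ, |d2| = 1 ∧ R.reverse = C d2 * R := by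
    rcases b3 with h3 | h3
    · exact ⟨1, by simp, by rw [h3, C_1, one_mul]⟩
    · exact ⟨-1, by simp, by rw [h3, C_neg, C_1]; ring⟩
  obtain ⟨d1, hd1, e1⟩ := hd1
  obtain ⟨d2, hd2, e2⟩ := hd2
  rw [e1, e2] at hPrev
  have hmpos : 0 < m := by omega
  have k1 : (C d1 * X ^ l + C (-d2)) * R = C e * X ^ m + C (-(d1 * e)) := by
    have : C d1 * (X ^ l * R + C e) = C d2 * R + C e * X ^ m := by rw [← hPR]; exact hPrev
    rw [C_neg, C_neg, C_mul]
    linear_combination this
  have k2 : P * (C d1 * X ^ l + C (-d2)) = C e * X ^ (l + m) + C (-(d2 * e)) := by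
    rw [hPR, C_neg, C_neg, C_mul, pow_add]
    rw [C_neg, C_neg, C_mul] at k1
    linear_combination (X ^ l) * k1
  have hM0 : MM (C d1 * X ^ l + C (-d2)) = 1 := MM_binomial hl0 hd1 (by rwa [abs_neg])
  have k3 : MM R = 1 := by
    have h3 := congrArg MM k1
    rw [MM_mul, hM0, one_mul, MM_binomial hmpos a2 (by rw [abs_neg, abs_mul, hd1, a2, one_mul])]
      at h3
    exact h3
  have k4 : MM P = 1 := by
    have h3 := congrArg MM k2
    rw [MM_mul, hM0, mul_one, MM_binomial (by omega) a2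
      (by rw [abs_neg, abs_mul, hd2, a2, one_mul])] at h3
    exact h3
  exact ⟨hMR ▸ k3, k4⟩

end Pool.Agent.Run7.h80.Comp
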