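import Mathlib
import Pool.Agent.Run7.h80.Comp.CompB

/-!
# Composite polynomials: the gap theorem
-/

set_option autoImplicit false

open Polynomial

namespace Pool.Agent.Run7.h80.Comp

lemma MM_le_of_dvd {f g : ℤ[X]} (hg : g ≠ 0) (h : f ∣ g) : MM f ≤ MM g := by
  obtain ⟨q, rfl⟩ := h
  rw [MM_mul]
  have h1 : q ≠ 0 := right_ne_zero_of_mul hg
  have h2 : f ≠ 0 := left_ne_zero_of_mul hg
  exact le_mul_of_one_le_right (by linarith [one_le_MM h2]) (one_le_MM h1)

lemma comp_ne_zero {g h : ℤ[X]} (hg : g ≠ 0) (hd : h.natDegree ≠ 0) : g.comp h ≠ 0 := by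
  intro h0
  have h1 := leadingCoeff_comp' g h hd
  rw [h0, leadingCoeff_zero] at h1
  have h2 : h ≠ 0 := by
    rintro rfl
    simp at hd
  exact (mul_ne_zero (leadingCoeff_ne_zero.2 hg) (pow_ne_zero _ (leadingCoeff_ne_zero.2 h2)))
    h1.symm

lemma isRoot_rat {g : ℤ[X]} {c : ℚ} (h : (c : ℂ) ∈ (g.map (Int.castRingHom ℂ)).roots) :
    (g.map (Int.castRingHom ℚ)).IsRoot c := by
  have h2 := (mem_roots'.1 h).2
  have h3 : g.map (Int.castRingHom ℂ) =
      (g.map (Int.castRingHom ℚ)).map (algebraMap ℚ ℂ) := by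
    rw [Polynomial.map_map]
    congr 1
  have h4 : (c : ℂ) = algebraMap ℚ ℂ c := by simp
  rw [h3, h4] at h2
  exact (isRoot_map_iff (algebraMap ℚ ℂ).injective).1 h2

/-- a rational zero of the outer polynomial is an integer if the measure is small -/
lemma integral_of_small {g h : ℤ[X]} (hg : g ≠ 0) (hd : h.natDegree ≠ 0)
    (hM : MM (g.comp h) ^ 2 < Real.goldenRatio) {c : ℚ}
    (hc : (c : ℂ) ∈ (g.map (Int.castRingHom ℂ)).roots) :
    ∃ n : ℤ, c = n ∧ MM (h - C n) ^ 2 < Real.goldenRatio := by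
  have h1 : (lin c).comp h ∣ g.comp h := by
    obtain ⟨q, hq⟩ := lin_dvd (isRoot_rat hc)
    exact ⟨q.comp h, by rw [hq, mul_comp]⟩
  have h0 := comp_ne_zero hg hd
  have h2 := MM_le_of_dvd h0 h1
  have h3 : MM ((lin c).comp h) ^ 2 < Real.goldenRatio := by
    refine lt_of_le_of_lt (pow_le_pow_left₀ ?_ h2 2) hM
    linarith [one_le_MM (ne_zero_of_dvd_ne_zero h0 h1)]
  have h4 := lt_two_of_sq h3
  have h5 := abs_eq_one_of (leadingCoeff_ne_zero.2 (ne_zero_of_dvd_ne_zero h0 h1))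
    (lead_le_MM _) h4
  rw [leadingCoeff_comp' _ _ hd, lin_natDegree, pow_one, abs_mul, lin_leadingCoeff] at h5
  have h6 : |((c.den : ℕ) : ℤ)| = 1 := by
    have h7 : |((c.den : ℕ) : ℤ)| ∣ 1 := ⟨_, h5.symm⟩
    exact Int.eq_one_of_dvd_one (abs_nonneg _) h7
  have h7 : c.den = 1 := by
    rw [Nat.abs_cast] at h6
    exact_mod_cast h6
  refine ⟨c.num, (Rat.den_eq_one_iff c).1 h7 |>.symm, ?_⟩
  have h8 : (lin c).comp h = h - C c.num := by
    rw [lin, h7]
    simp
  rwa [h8] at h3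

/-- **composite polynomials: the gap theorem** -/
theorem comp_gap {g h : ℤ[X]} (hh : ∀ (a c : ℤ) (m : ℕ), h ≠ C a * X ^ m + C c) (hg : g ≠ 0)
    {z w : ℂ} (hzw : z ≠ w) (hz : z ∈ (g.map (Int.castRingHom ℂ)).roots)
    (hw : w ∈ (g.map (Int.castRingHom ℂ)).roots) :
    MM (g.comp h) = 1 ∨ Real.goldenRatio ≤ MM (g.comp h) ^ 2 := by
  classical
  rcases lt_or_ge (MM (g.comp h) ^ 2) Real.goldenRatio with hM | hM
  swap
  · exact Or.inr hM
  left
  have hd := natDegree_ne_zero hh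
  obtain ⟨s, hs, hs0, hb⟩ := comp_bound h hh
  have hout : outside g s = 0 := by
    by_contra hcon
    have h1 := hb g hg
    have h2 := golden_pow_mono (Nat.one_le_iff_ne_zero.2 hcon)
    rw [pow_one] at h2
    linarith
  have hin : ∀ t ∈ (g.map (Int.castRingHom ℂ)).roots, ∃ c ∈ s, t = (c : ℂ) := by
    intro t ht
    rw [outside, Multiset.card_eq_zero, Multiset.filter_eq_nil] at hout
    have := hout t ht
    push Not at this
    exact this
  obtain ⟨c₁, hc₁, e₁⟩ := hin z hz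
  obtain ⟨c₂, hc₂, e₂⟩ := hin w hw
  have hcc : c₁ ≠ c₂ := by
    rintro rfl
    exact hzw (e₁.trans e₂.symm)
  have hsub : {c₁, c₂} ⊆ s := by
    intro x hx
    rcases Finset.mem_insert.1 hx with rfl | hx
    · exact hc₁
    · rw [Finset.mem_singleton.1 hx]
      exact hc₂
  have hseq : s = {c₁, c₂} := by
    symm
    apply Finset.eq_of_subset_of_card_le hsub
    rw [Finset.card_pair hcc]
    exact hs
  -- the exceptional value different from the value at zero
  have hr : ∃ r : ℤ, r ≠ h.coeff 0 ∧ MM (h - C r) ^ 2 < Real.goldenRatio ∧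
      MM (h - C (h.coeff 0)) ^ 2 < Real.goldenRatio ∧
      ∀ t ∈ (g.map (Int.castRingHom ℂ)).roots, t = ((h.coeff 0 : ℤ) : ℂ) ∨ t = (r : ℂ) := by
    rw [e₁] at hz
    rw [e₂] at hw
    obtain ⟨n₁, f₁, g₁⟩ := integral_of_small hg hd hM hz
    obtain ⟨n₂, f₂, g₂⟩ := integral_of_small hg hd hM hw
    have hnn : n₁ ≠ n₂ := by
      rintro rfl
      exact hcc (f₁.trans f₂.symm)
    have hall : ∀ t ∈ (g.map (Int.castRingHom ℂ)).roots, t = (n₁ : ℂ) ∨ t = (n₂ : ℂ) := by
      intro t ht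
      obtain ⟨c, hc, rfl⟩ := hin t ht
      rw [hseq, Finset.mem_insert, Finset.mem_singleton] at hc
      rcases hc with rfl | rfl
      · left
        rw [f₁]
        simp
      · right
        rw [f₂]
        simp
    rw [hseq, Finset.mem_insert, Finset.mem_singleton, f₁, f₂] at hs0
    rcases hs0 with h1 | h1
    · have h2 : h.coeff 0 = n₁ := by exact_mod_cast h1
      refine ⟨n₂, by rw [h2]; exact hnn.symm, g₂, by rw [h2]; exact g₁, ?_⟩
      rw [h2]
      exact hall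
    · have h2 : h.coeff 0 = n₂ := by exact_mod_cast h1
      refine ⟨n₁, by rw [h2]; exact hnn, g₁, by rw [h2]; exact g₂, ?_⟩
      rw [h2]
      exact fun t ht => (hall t ht).symm
  obtain ⟨r, hr0, hr1, hr2, hr3⟩ := hr
  obtain ⟨k1, k2⟩ := two_exceptional hd hr0 hr2 hr1
  have hlead : |g.leadingCoeff| = 1 := by
    have h1 := abs_eq_one_of (leadingCoeff_ne_zero.2 (comp_ne_zero hg hd))
      (lead_le_MM _) (lt_two_of_sq hM)
    rw [leadingCoeff_comp' _ _ hd, abs_mul] at h1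
    exact Int.eq_one_of_dvd_one (abs_nonneg _) ⟨_, h1.symm⟩
  rw [← pcomp_one_comp, MM_pcomp]
  have e3 : |(g.leadingCoeff : ℝ)| = 1 := by exact_mod_cast hlead
  rw [e3, one_mul]
  apply Multiset.prod_eq_one
  intro x hx
  obtain ⟨t, ht, rfl⟩ := Multiset.mem_map.1 hx
  have e4 : ∀ n : ℤ, h.map (Int.castRingHom ℂ) - C (n : ℂ) * (1 : ℤ[X]).map (Int.castRingHom ℂ) =
      (h - C n).map (Int.castRingHom ℂ) := by
    intro n
    rw [Polynomial.map_sub, Polynomial.map_one, mul_one, map_C]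
    rfl
  rcases hr3 t ht with rfl | rfl
  · rw [e4]
    exact k1
  · rw [e4]
    exact k2

end Pool.Agent.Run7.h80.Comp
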