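import Mathlib
import Pool.Agent.Run7.h80.Comp.CompC

/-!
# Composition with Laurent polynomials
-/

set_option autoImplicit false

open Polynomial

namespace Pool.Agent.Run7.h80.Comp

lemma pen_laurent {A : ℤ[X]} (hA : A.Monic) (h0 : A.coeff 0 ≠ 0) {b : ℤ} (hb : b = 1 ∨ b = -1)
    {n : ℕ} (hn : 0 < n) (hnm : 2 * n ≤ A.natDegree)
    (hex : 2 * n = A.natDegree →
      ∃ j, 0 < j ∧ j < n ∧ A.coeff j ≠ A.coeff 0 * A.coeff (A.natDegree - j)) :
    ∃ (k : ℕ) (s : Finset ℚ), Pen A (C b * X ^ n) k ∧ s.card ≤ 1 ∧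
      ∀ t : ℂ, (∀ c ∈ s, t ≠ (c : ℂ)) → Good A (C b * X ^ n) k t := by
  classical
  set m := A.natDegree with hmdef
  have hexn : ∃ j, 0 < j ∧ (j = n ∨ A.coeff j ≠ A.coeff 0 * A.coeff (m - j)) :=
    ⟨n, hn, Or.inl rfl⟩
  set k := Nat.find hexn with hk
  obtain ⟨hk0, hkc⟩ := Nat.find_spec hexn
  rw [← hk] at hk0 hkc
  have hkn : k ≤ n := Nat.find_min' hexn ⟨hn, Or.inl rfl⟩
  have hklt : k < m - n := by
    rcases Nat.lt_or_ge (2 * n) m with h | h
    · omega
    · obtain ⟨j, hj0, hjn, hj⟩ := hex (by omega)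
      have := Nat.find_min' hexn (m := j) ⟨hj0, Or.inr hj⟩
      omega
  have hmin : ∀ j, 0 < j → j < k → A.coeff j = A.coeff 0 * A.coeff (m - j) := by
    intro j hj0 hjk
    have h1 := Nat.find_min hexn hjk
    push Not at h1
    exact (h1 hj0).2
  have hB : ∀ j, (C b * X ^ n : ℤ[X]).coeff j = if j = n then b else 0 := by
    intro j
    rw [coeff_C_mul, coeff_X_pow]
    split_ifs <;> simp
  have hpen : Pen A (C b * X ^ n) k :=
    { monic := hA
      kpos := hk0
      kle := by omega
      top := fun j hj => by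
        rw [hB, if_neg (by omega)]
      low := fun j hj0 hj => by
        refine ⟨hmin j hj0 hj, ?_⟩
        rw [hB, hB, if_neg (by omega), if_neg (by omega), zero_mul] }
  have h0' : ((A.coeff 0 : ℤ) : ℂ) ≠ 0 := by exact_mod_cast h0
  rcases Nat.lt_or_ge k n with hlt | hge
  · refine ⟨k, ∅, hpen, by simp, fun t _ => ⟨?_, ?_⟩⟩
    · rw [hB, if_neg (by omega)]
      simpa using h0
    · rw [hB, hB, if_neg (by omega), if_neg (by omega), ← hmdef]
      have h1 : A.coeff k ≠ A.coeff 0 * A.coeff (m - k) := by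
        rcases hkc with h | h
        · omega
        · exact h
      have h2 : ((A.coeff k - A.coeff 0 * A.coeff (m - k) : ℤ) : ℂ) ≠ 0 := by
        exact_mod_cast sub_ne_zero.2 h1
      simpa using h2
  · have hkn' : k = n := le_antisymm hkn hge
    refine ⟨k, {((b * (A.coeff k - A.coeff 0 * A.coeff (m - k)) : ℤ) : ℚ)}, hpen, by simp,
      fun t ht => ⟨?_, ?_⟩⟩
    · rw [hB, if_neg (by omega)]
      simpa using h0
    · rw [hB, hB, if_pos hkn', if_neg (by omega), ← hmdef]
      intro h
      apply ht _ (Finset.mem_singleton_self _)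
      have hbb : (b : ℂ) * b = 1 := by
        rcases hb with rfl | rfl <;> norm_num
      push_cast at h ⊢
      linear_combination (-(b : ℂ)) * h + (-t) * hbb

lemma mahlerMeasure_reverse (P : ℂ[X]) : P.reverse.mahlerMeasure = P.mahlerMeasure := by
  have h1 : ∀ T : Multiset ℂ, ((T.map fun a => (X - C a : ℂ[X])).prod).reverse.mahlerMeasure =
      ((T.map fun a => (X - C a : ℂ[X])).prod).mahlerMeasure := by
    intro T
    induction T using Multiset.induction_on with
    | empty =>
      simp only [Multiset.map_zero, Multiset.prod_zero]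
      rw [← C_1, reverse_C]
    | cons a T ih =>
      rw [Multiset.map_cons, Multiset.prod_cons, reverse_mul_of_domain, mahlerMeasure_mul, ih,
        mahlerMeasure_mul]
      congr 1
      rw [Pool.Agent.H338R2.reverse_X_sub_C, mahlerMeasure_X_sub_C]
      by_cases ha : a = 0
      · subst ha
        simp
      · have e : (1 - C a * X : ℂ[X]) = C (-a) * X + C 1 := by
          rw [C_neg, C_1]
          ring
        rw [e, mahlerMeasure_C_mul_X_add_C (neg_ne_zero.2 ha)]
        rw [norm_neg, norm_one, max_comm]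
  have h2 : P = C P.leadingCoeff * (P.roots.map fun a => (X - C a : ℂ[X])).prod :=
    (IsAlgClosed.splits P).eq_prod_roots
  rw [h2, reverse_mul_of_domain, reverse_C, mahlerMeasure_mul, mahlerMeasure_mul, h1]

lemma two_pow_le_pcomp {A B : ℤ[X]} (h : ∀ t : ℂ, 2 ≤
    (A.map (Int.castRingHom ℂ) - C t * B.map (Int.castRingHom ℂ)).mahlerMeasure) {g : ℤ[X]}
    (hg : g ≠ 0) : (2 : ℝ) ^ g.natDegree ≤ MM (pcomp g A B) := by
  rw [MM_pcomp, ← card_roots_eq]
  have h1 : (1 : ℝ) ≤ |(g.leadingCoeff : ℝ)| := by
    have := Int.one_le_abs (leadingCoeff_ne_zero.2 hg)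
    exact_mod_cast this
  have h2 : ∀ T : Multiset ℂ, (2 : ℝ) ^ Multiset.card T ≤ (T.map fun t =>
      (A.map (Int.castRingHom ℂ) - C t * B.map (Int.castRingHom ℂ)).mahlerMeasure).prod := by
    intro T
    induction T using Multiset.induction_on with
    | empty => simp
    | cons a T ih =>
      rw [Multiset.card_cons, Multiset.map_cons, Multiset.prod_cons, pow_succ, mul_comm]
      exact mul_le_mul (h a) ih (by positivity) (by linarith [h a])
  have h3 := h2 (g.map (Int.castRingHom ℂ)).roots
  have h4 : (0 : ℝ) < 2 ^ Multiset.card (g.map (Int.castRingHom ℂ)).roots := by positivity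
  exact h3.trans (le_mul_of_one_le_left (h4.le.trans h3) h1)

lemma pencil_natDegree {A : ℤ[X]} {n : ℕ} (hnm : n < A.natDegree) (t : ℂ) :
    (A.map (Int.castRingHom ℂ) - C t * (X ^ n : ℤ[X]).map (Int.castRingHom ℂ)).natDegree =
      A.natDegree ∧
    (A.map (Int.castRingHom ℂ) - C t * (X ^ n : ℤ[X]).map (Int.castRingHom ℂ)).leadingCoeff =
      (A.leadingCoeff : ℂ) := by
  have hd : (C t * (X ^ n : ℤ[X]).map (Int.castRingHom ℂ)).natDegree <
      (A.map (Int.castRingHom ℂ)).natDegree := by
    rw [natDegree_map_eq_of_injective (Int.castRingHom ℂ).injective_int, Polynomial.map_pow,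
      map_X]
    exact lt_of_le_of_lt (natDegree_C_mul_X_pow_le t n) hnm
  have h1 : (A.map (Int.castRingHom ℂ) -
      C t * (X ^ n : ℤ[X]).map (Int.castRingHom ℂ)).natDegree = A.natDegree := by
    rw [natDegree_sub_eq_left_of_natDegree_lt hd,
      natDegree_map_eq_of_injective (Int.castRingHom ℂ).injective_int]
  refine ⟨h1, ?_⟩
  rw [leadingCoeff, h1, coeff_sub, coeff_map, coeff_C_mul, Polynomial.map_pow, map_X, coeff_X_pow,
    if_neg (by omega), mul_zero, sub_zero]
  rfl

lemma pencil_coeff_zero {A : ℤ[X]} {n : ℕ} (hn : 0 < n) (t : ℂ) :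
    (A.map (Int.castRingHom ℂ) - C t * (X ^ n : ℤ[X]).map (Int.castRingHom ℂ)).coeff 0 =
      (A.coeff 0 : ℂ) := by
  rw [coeff_sub, coeff_map, coeff_C_mul, Polynomial.map_pow, map_X, coeff_X_pow,
    if_neg (by omega), mul_zero, sub_zero]
  rfl

/-- reversing the pencil -/
lemma MM_pcomp_reverse (g : ℤ[X]) {A : ℤ[X]} {n : ℕ} (hn : 0 < n)
    (hnm : n < A.natDegree) :
    MM (pcomp g A.reverse (X ^ (A.natDegree - n))) = MM (pcomp g A (X ^ n)) := by
  rw [MM_pcomp, MM_pcomp]
  congr 2
  apply Multiset.map_congr rfl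
  intro t _
  rw [← mahlerMeasure_reverse
    (A.map (Int.castRingHom ℂ) - C t * (X ^ n : ℤ[X]).map (Int.castRingHom ℂ))]
  congr 1
  ext j
  rw [coeff_reverse, (pencil_natDegree hnm t).1, coeff_sub, coeff_sub, coeff_map, coeff_map,
    coeff_C_mul, coeff_C_mul, coeff_reverse, Polynomial.map_pow, Polynomial.map_pow, map_X,
    coeff_X_pow, coeff_X_pow]
  congr 2
  rcases le_or_gt j A.natDegree with h | h
  · rw [revAt_le h]
    by_cases hj : j = A.natDegree - n
    · rw [if_pos hj, if_pos (by omega)]
    · rw [if_neg hj, if_neg (by omega)]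
  · rw [revAt_eq_self_of_lt h, if_neg (by omega), if_neg (by omega)]

theorem laurent_half {A : ℤ[X]} (h0 : A.coeff 0 ≠ 0) {n : ℕ} (hn : 0 < n)
    (hnm : 2 * n ≤ A.natDegree) (h1 : 2 * n = A.natDegree → A.reverse ≠ A)
    (h2 : 2 * n = A.natDegree → ∀ c : ℤ, A.reverse ≠ C c * X ^ n - A) :
    ∃ s : Finset ℚ, s.card ≤ 1 ∧
      ∀ g : ℤ[X], g ≠ 0 → Real.goldenRatio ^ outside g s ≤ MM (pcomp g A (X ^ n)) ^ 2 := by
  have hA0 : A ≠ 0 := by
    rintro rfl
    simp at h0
  have hlc := leadingCoeff_ne_zero.2 hA0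
  by_cases habs : 2 ≤ |A.leadingCoeff|
  · refine ⟨∅, by simp, fun g hg => ?_⟩
    refine (golden_pow_mono (outside_le g _)).trans (golden_of_large (two_pow_le_pcomp ?_ hg))
    intro t
    have h3 := leadingCoeff_le_mahlerMeasure
      (A.map (Int.castRingHom ℂ) - C t * (X ^ n : ℤ[X]).map (Int.castRingHom ℂ))
    rw [(pencil_natDegree (by omega) t).2, Complex.norm_intCast] at h3
    exact le_trans (by exact_mod_cast habs) h3
  by_cases habs0 : 2 ≤ |A.coeff 0|
  · refine ⟨∅, by simp, fun g hg => ?_⟩
    refine (golden_pow_mono (outside_le g _)).trans (golden_of_large (two_pow_le_pcomp ?_ hg))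
    intro t
    have h3 := norm_coeff_le_choose_mul_mahlerMeasure 0
      (A.map (Int.castRingHom ℂ) - C t * (X ^ n : ℤ[X]).map (Int.castRingHom ℂ))
    rw [pencil_coeff_zero hn t, Complex.norm_intCast, Nat.choose_zero_right, Nat.cast_one,
      one_mul] at h3
    exact le_trans (by exact_mod_cast habs0) h3
  have k1 : |A.leadingCoeff| = 1 := by
    have := Int.one_le_abs hlc
    omega
  have k0 : |A.coeff 0| = 1 := by
    have := Int.one_le_abs h0
    omega
  -- the monic case
  have key : ∀ B : ℤ[X], B.Monic → |B.coeff 0| = 1 → B.natDegree = A.natDegree →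
      (2 * n = A.natDegree → B.reverse ≠ B) →
      (2 * n = A.natDegree → ∀ c : ℤ, B.reverse ≠ C c * X ^ n - B) →
      (2 * n = B.natDegree →
        ∃ j, 0 < j ∧ j < n ∧ B.coeff j ≠ B.coeff 0 * B.coeff (B.natDegree - j)) := by
    intro B hB hB0 hBd j1 j2 hn2
    by_contra hcon
    push Not at hcon
    rw [hBd] at hcon hn2
    have hBm : B.coeff A.natDegree = 1 := by rw [← hBd]; exact hB
    rcases (abs_eq (zero_le_one' ℤ)).1 hB0 with e | e
    · apply j1 hn2
      ext j
      rw [coeff_reverse, hBd]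
      rcases le_or_gt j A.natDegree with h | h
      · rw [revAt_le h]
        rcases lt_trichotomy j n with h3 | h3 | h3
        · rcases Nat.eq_zero_or_pos j with rfl | h4
          · rw [Nat.sub_zero, hBm, e]
          · have := hcon j h4 h3
            rw [this, e, one_mul]
        · congr 1
          omega
        · rcases Nat.eq_zero_or_pos (A.natDegree - j) with h4 | h4
          · have : j = A.natDegree := by omega
            rw [h4, this, hBm, e]
          · have := hcon (A.natDegree - j) h4 (by omega)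
            rw [this, e, one_mul]
            congr 1
            omega
      · rw [revAt_eq_self_of_lt h]
    · apply j2 hn2 (2 * B.coeff n)
      ext j
      rw [coeff_reverse, hBd, coeff_sub, coeff_C_mul, coeff_X_pow]
      rcases le_or_gt j A.natDegree with h | h
      · rw [revAt_le h]
        rcases lt_trichotomy j n with h3 | h3 | h3
        · rw [if_neg (by omega)]
          rcases Nat.eq_zero_or_pos j with rfl | h4
          · rw [Nat.sub_zero, hBm, e]
            ring
          · have := hcon j h4 h3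
            rw [this, e]
            ring
        · rw [if_pos h3]
          have : A.natDegree - j = n := by omega
          rw [this, h3]
          ring
        · rw [if_neg (by omega)]
          rcases Nat.eq_zero_or_pos (A.natDegree - j) with h4 | h4
          · have : j = A.natDegree := by omega
            rw [h4, this, hBm, e]
            ring
          · have := hcon (A.natDegree - j) h4 (by omega)
            rw [this, e]
            have h5 : A.natDegree - (A.natDegree - j) = j := by omega
            rw [h5]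
            ring
      · rw [revAt_eq_self_of_lt h, if_neg (by omega), coeff_eq_zero_of_natDegree_lt (by omega)]
        ring
  rcases (abs_eq (zero_le_one' ℤ)).1 k1 with e | e
  · obtain ⟨k, s, hp, hs, hgood⟩ := pen_laurent (A := A) e h0 (b := 1) (Or.inl rfl) hn hnm
      (key A e k0 rfl h1 h2)
    refine ⟨s, hs, fun g hg => ?_⟩
    have := pencil_outside hp s hgood hg
    rwa [C_1, one_mul] at this
  · have hmon : (-A).Monic := by
      rw [Monic, leadingCoeff_neg, e]
      norm_num
    obtain ⟨k, s, hp, hs, hgood⟩ := pen_laurent (A := -A) hmon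
      (by rwa [coeff_neg, neg_ne_zero]) (b := -1) (Or.inr rfl) hn
      (by rwa [natDegree_neg]) (key (-A) hmon (by rwa [coeff_neg, abs_neg]) (natDegree_neg A)
      (by
        intro h3 h4
        rw [reverse_neg] at h4
        exact h1 h3 (neg_injective h4))
      (by
        intro h3 c h4
        rw [reverse_neg] at h4
        apply h2 h3 (-c)
        rw [C_neg]
        linear_combination -h4))
    refine ⟨s, hs, fun g hg => ?_⟩
    have h5 := pencil_outside hp s hgood hg
    have e2 : (C (-1) * X ^ n : ℤ[X]) = -X ^ n := by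
      rw [C_neg, C_1]
      ring
    rwa [e2, MM_pcomp_neg] at h5

/-- **composition with Laurent polynomials** -/
theorem laurent {A : ℤ[X]} (h0 : A.coeff 0 ≠ 0) {n : ℕ} (hn : 0 < n) (hnm : n < A.natDegree)
    (h1 : 2 * n = A.natDegree → A.reverse ≠ A)
    (h2 : 2 * n = A.natDegree → ∀ c : ℤ, A.reverse ≠ C c * X ^ n - A) :
    ∃ s : Finset ℚ, s.card ≤ 1 ∧
      ∀ g : ℤ[X], g ≠ 0 → Real.goldenRatio ^ outside g s ≤ MM (pcomp g A (X ^ n)) ^ 2 := by
  rcases le_or_gt (2 * n) A.natDegree with h | h
  · exact laurent_half h0 hn h h1 h2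
  · have hA0 : A ≠ 0 := by
      rintro rfl
      simp at h0
    have hd : A.reverse.natDegree = A.natDegree := by
      rw [reverse_natDegree, natTrailingDegree_eq_zero_of_constantCoeff_ne_zero, Nat.sub_zero]
      rwa [constantCoeff_apply]
    have hr0 : A.reverse.coeff 0 ≠ 0 := by
      rw [coeff_zero_reverse]
      exact leadingCoeff_ne_zero.2 hA0
    obtain ⟨s, hs, hb⟩ := laurent_half (A := A.reverse) hr0 (n := A.natDegree - n) (by omega)
      (by rw [hd]; omega) (fun h3 => by rw [hd] at h3; omega) (fun h3 => by rw [hd] at h3; omega)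
    refine ⟨s, hs, fun g hg => ?_⟩
    rw [← MM_pcomp_reverse g hn hnm]
    exact hb g hg

end Pool.Agent.Run7.h80.Comp
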