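import Mathlib
import Pool.Agent.Run7.h80.Comp.Pencil

/-!
# Relative polynomials over an arbitrary number field
-/

set_option autoImplicit false

open Polynomial ComplexConjugate

namespace Pool.Agent.Run7.h80.Comp

lemma one_le_prod_embeddings {F : Type*} [Field F] [NumberField F] {x : F} (hx : IsIntegral ℤ x)
    (h0 : x ≠ 0) : 1 ≤ ∏ σ : F →+* ℂ, ‖σ x‖ := by
  have h1 := Algebra.norm_eq_prod_embeddings ℚ ℂ x
  have h2 : IsIntegral ℤ (Algebra.norm ℚ x) := Algebra.isIntegral_norm ℚ hx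
  obtain ⟨n, hn⟩ := IsIntegrallyClosed.isIntegral_iff.1 h2
  have hn0 : n ≠ 0 := by
    rintro rfl
    rw [map_zero] at hn
    exact h0 (Algebra.norm_eq_zero_iff.1 hn.symm)
  have h3 : ∏ σ : F →+* ℂ, ‖σ x‖ = ‖algebraMap ℚ ℂ (Algebra.norm ℚ x)‖ := by
    rw [h1, norm_prod]
    exact Fintype.prod_equiv (RingHom.equivRatAlgHom F ℂ) _ _ (fun σ => rfl)
  rw [h3, ← hn]
  have h4 : algebraMap ℚ ℂ (algebraMap ℤ ℚ n) = (n : ℂ) := by simp
  rw [h4, Complex.norm_intCast]
  have := Int.one_le_abs hn0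
  exact_mod_cast this

/-- **relative polynomials over an arbitrary number field** -/
theorem relative {F : Type*} [Field F] [NumberField F] {P : F[X]} (hP : P.Monic)
    (hint : ∀ i, IsIntegral ℤ (P.coeff i)) (h0 : P.coeff 0 ≠ 0) {k : ℕ} (hk : 0 < k)
    (hkm : k ≤ P.natDegree)
    (hc : ∀ j, 0 < j → j ≤ k → ∃ y : F, ∀ σ : F →+* ℂ, σ y = conj (σ (P.coeff (P.natDegree - j))))
    (hne : ∃ σ : F →+* ℂ, σ (P.coeff k) ≠ σ (P.coeff 0) * conj (σ (P.coeff (P.natDegree - k))))
    {f : ℤ[X]} (hf : f.map (Int.castRingHom ℂ) = ∏ σ : F →+* ℂ, P.map σ) :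
    Real.goldenRatio ^ (Module.finrank ℚ F) ≤ MM f ^ 2 := by
  classical
  set m := P.natDegree with hm
  have hc' : ∀ j, ∃ y : F, 0 < j → j ≤ k → ∀ σ : F →+* ℂ, σ y = conj (σ (P.coeff (m - j))) := by
    intro j
    by_cases h : 0 < j ∧ j ≤ k
    · obtain ⟨y, hy⟩ := hc j h.1 h.2
      exact ⟨y, fun _ _ => hy⟩
    · exact ⟨0, fun h1 h2 => absurd ⟨h1, h2⟩ h⟩
  choose y hy using hc'
  have hex : ∃ j, 0 < j ∧ j ≤ k ∧ P.coeff j ≠ P.coeff 0 * y j := by
    refine ⟨k, hk, le_rfl, ?_⟩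
    intro h
    obtain ⟨σ, hσ⟩ := hne
    apply hσ
    rw [h, map_mul, hy k hk le_rfl]
  set l := Nat.find hex with hl
  obtain ⟨hl0, hlk, hlne⟩ := Nat.find_spec hex
  rw [← hl] at hl0 hlk hlne
  have hmin : ∀ j, 0 < j → j < l → P.coeff j = P.coeff 0 * y j := by
    intro j hj0 hj
    have h1 := Nat.find_min hex hj
    push Not at h1
    exact h1 hj0 (by omega)
  have hPd : ∀ σ : F →+* ℂ, (P.map σ).natDegree = m :=
    fun σ => natDegree_map_eq_of_injective σ.injective P
  have hdef : ∀ (σ : F →+* ℂ) (j : ℕ), 0 < j → j ≤ k →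
      defect (P.map σ) j = σ (P.coeff j - P.coeff 0 * y j) := by
    intro σ j hj0 hj
    rw [defect, hPd, coeff_map, coeff_map, coeff_map, map_sub, map_mul, hy j hj0 hj]
  have hyint : IsIntegral ℤ (y l) := by
    obtain ⟨σ, _⟩ := hne
    have h1 : IsIntegral ℤ (σ (y l)) := by
      rw [hy l hl0 hlk]
      exact map_isIntegral_int (starRingEnd ℂ) (map_isIntegral_int σ (hint _))
    exact (isIntegral_algHom_iff σ.toIntAlgHom σ.injective).1 h1
  have hxint : IsIntegral ℤ (P.coeff l - P.coeff 0 * y l) :=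
    (hint _).sub ((hint _).mul hyint)
  have hx0 : P.coeff l - P.coeff 0 * y l ≠ 0 := sub_ne_zero.2 hlne
  have hM : MM f = 1 * (((Finset.univ : Finset (F →+* ℂ)).val).map
      fun σ => (P.map σ).mahlerMeasure).prod := by
    rw [MM, hf, one_mul, Finset.prod_eq_multiset_prod, prod_mahlerMeasure_eq_mahlerMeasure_prod,
      Multiset.map_map]
    rfl
  have hcard : Module.finrank ℚ F = Multiset.card (Finset.univ : Finset (F →+* ℂ)).val := by
    rw [← NumberField.Embeddings.card F ℂ]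
    rfl
  rw [hM, hcard]
  refine prod_bound _ _ (fun σ => ‖defect (P.map σ) l‖) (fun σ => ‖(P.map σ).coeff 0‖) ?_ ?_ ?_ ?_
    le_rfl ?_ ?_
  · intro σ _
    exact mahlerMeasure_pos_of_ne_zero (hP.map σ).ne_zero
  · intro σ _
    apply norm_pos_iff.2
    rw [hdef σ l hl0 hlk]
    exact (map_ne_zero_iff σ σ.injective).2 hx0
  · intro σ _
    apply norm_pos_iff.2
    rw [coeff_map]
    exact (map_ne_zero_iff σ σ.injective).2 h0
  · intro σ _
    apply one_poly (hP.map σ)
    · rw [coeff_map]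
      exact (map_ne_zero_iff σ σ.injective).2 h0
    · rw [hPd]
      omega
    · intro j hj
      rcases Nat.eq_zero_or_pos j with rfl | hj0
      · rw [defect, hPd, Nat.sub_zero, coeff_map, coeff_map]
        have h1 : P.coeff m = 1 := hP
        rw [h1]
        simp
      · rw [hdef σ j hj0 (by omega), hmin j hj0 hj, sub_self, map_zero]
    · rw [hdef σ l hl0 hlk]
      exact (map_ne_zero_iff σ σ.injective).2 hx0
  · rw [one_mul]
    simp only [hdef _ l hl0 hlk]
    exact one_le_prod_embeddings hxint hx0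
  · rw [one_mul]
    simp only [coeff_map]
    exact one_le_prod_embeddings (hint 0) h0

end Pool.Agent.Run7.h80.Comp
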