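import Mathlib
import Pool.Agent.Run7.h80.Comp.CompC

/-!
# The constant is best possible
-/

set_option autoImplicit false

open Polynomial

namespace Pool.Agent.Run7.h80.Comp

lemma MM_pow (f : ℤ[X]) (n : ℕ) : MM (f ^ n) = MM f ^ n := by
  induction n with
  | zero => rw [pow_zero, pow_zero, MM, Polynomial.map_one, mahlerMeasure_one]
  | succ n ih => rw [pow_succ, MM_mul, ih, pow_succ]

lemma quad (c : ℝ) (h0 : 0 < c) (h4 : c < 4) :
    (X ^ 2 + C (c : ℂ) * X + C (c : ℂ)).mahlerMeasure = max 1 c := by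
  set z : ℂ := ⟨-c / 2, √(4 * c - c ^ 2) / 2⟩ with hz
  have hs : √(4 * c - c ^ 2) ^ 2 = 4 * c - c ^ 2 := Real.sq_sqrt (by nlinarith)
  have h1 : z + starRingEnd ℂ z = -(c : ℂ) := by
    apply Complex.ext
    · simp [hz]
    · simp [hz]
  have h2 : z * starRingEnd ℂ z = (c : ℂ) := by
    rw [Complex.mul_conj, Complex.normSq_mk]
    congr 1
    nlinarith
  have h3 : (X ^ 2 + C (c : ℂ) * X + C (c : ℂ) : ℂ[X]) = (X - C z) * (X - C (starRingEnd ℂ z)) := by
    have e1 : C (c : ℂ) = C z * C (starRingEnd ℂ z) := by rw [← C_mul, h2]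
    have e2 : C (c : ℂ) = -(C z + C (starRingEnd ℂ z)) := by
      rw [← C_add, h1, C_neg, neg_neg]
    have : (X - C z) * (X - C (starRingEnd ℂ z)) = X ^ 2 + (-(C z + C (starRingEnd ℂ z))) * X +
        C z * C (starRingEnd ℂ z) := by ring
    rw [this, ← e1, ← e2]
  have h5 : ‖z‖ ^ 2 = c := by
    have := congrArg norm h2
    rw [norm_mul, Complex.norm_conj, Complex.norm_real, Real.norm_of_nonneg h0.le] at this
    rw [← this]
    ring
  rw [h3, mahlerMeasure_mul, mahlerMeasure_X_sub_C, mahlerMeasure_X_sub_C, Complex.norm_conj]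
  rcases le_total ‖z‖ 1 with h | h
  · rw [max_eq_left h]
    have : c ≤ 1 := by
      rw [← h5]
      exact pow_le_one₀ (norm_nonneg _) h
    rw [max_eq_left this, one_mul]
  · rw [max_eq_right h]
    have : 1 ≤ c := by
      rw [← h5]
      exact one_le_pow₀ h
    rw [max_eq_right this, ← h5]
    ring

lemma MM_first : MM (X ^ 4 + X ^ 3 + X ^ 2 + X + 1) = 1 := by
  have h1 : (X ^ 4 + X ^ 3 + X ^ 2 + X + 1 : ℤ[X]) * (C 1 * X ^ 1 + C (-1)) =
      C 1 * X ^ 5 + C (-1) := by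
    rw [C_neg, C_1]
    ring
  have h2 := congrArg MM h1
  rw [MM_mul, MM_binomial one_pos (by simp) (by simp), MM_binomial (by norm_num) (by simp)
    (by simp), mul_one] at h2
  exact h2

lemma MM_second : MM (X ^ 4 + 3 * X ^ 3 + 4 * X ^ 2 + 2 * X + 1) = Real.goldenRatio ^ 2 := by
  have hg := Real.goldenRatio_sq
  have hlt := Real.goldenRatio_lt_two
  have hgt := Real.one_lt_goldenRatio
  set φ := Real.goldenRatio with hφ
  have h1 : (X ^ 4 + 3 * X ^ 3 + 4 * X ^ 2 + 2 * X + 1 : ℤ[X]).map (Int.castRingHom ℂ) =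
      (X ^ 2 + C ((φ + 1 : ℝ) : ℂ) * X + C ((φ + 1 : ℝ) : ℂ)) *
        (X ^ 2 + C ((2 - φ : ℝ) : ℂ) * X + C ((2 - φ : ℝ) : ℂ)) := by
    have e1 : C ((2 - φ : ℝ) : ℂ) + C ((φ + 1 : ℝ) : ℂ) = 3 := by
      rw [← C_add, ← Complex.ofReal_add]
      have : (2 - φ + (φ + 1) : ℝ) = 3 := by ring
      rw [this]
      exact map_ofNat C 3
    have e2 : C ((2 - φ : ℝ) : ℂ) * C ((φ + 1 : ℝ) : ℂ) = 1 := by
      rw [← C_mul, ← Complex.ofReal_mul]
      have : ((2 - φ) * (φ + 1) : ℝ) = 1 := by nlinarith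
      rw [this]
      simp
    simp only [Polynomial.map_add, Polynomial.map_mul, Polynomial.map_pow, map_X,
      Polynomial.map_one, Polynomial.map_ofNat]
    linear_combination (-(X ^ 3 + X ^ 2)) * e1 + (-(X ^ 2 + 2 * X + 1)) * e2
  rw [MM, h1, mahlerMeasure_mul, quad _ (by linarith) (by nlinarith), quad _ (by linarith)
    (by linarith), max_eq_right (by linarith), max_eq_left (by linarith), mul_one, hg]

/-- the outer polynomial of the extremal example -/
noncomputable def ex : ℤ[X] := X ^ 4 + 2 * X ^ 3 + 4 * X ^ 2 + 3 * X + 1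

lemma ex_comp : ex.comp (X ^ 2 + X) =
    (X ^ 4 + X ^ 3 + X ^ 2 + X + 1) * (X ^ 4 + 3 * X ^ 3 + 4 * X ^ 2 + 2 * X + 1) := by
  simp only [ex, add_comp, mul_comp, pow_comp, X_comp, one_comp, ofNat_comp]
  ring

lemma ex_natDegree : ex.natDegree = 4 := by
  rw [ex]
  compute_degree!

lemma ex_pos (q : ℚ) : aeval q ex ≠ 0 := by
  have h1 : aeval q ex = q ^ 4 + 2 * q ^ 3 + 4 * q ^ 2 + 3 * q + 1 := by
    simp only [ex, map_add, map_mul, map_pow, aeval_X, map_one, map_ofNat]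
  rw [h1]
  have h2 : 0 < q ^ 4 + 2 * q ^ 3 + 4 * q ^ 2 + 3 * q + 1 := by
    nlinarith [sq_nonneg (q ^ 2 + q + 1 / 4), sq_nonneg (q + 1 / 2), sq_nonneg (q ^ 2 + q)]
  exact h2.ne'

lemma inner_ok (a c : ℤ) (m : ℕ) : (X ^ 2 + X : ℤ[X]) ≠ C a * X ^ m + C c := by
  intro h
  have h1 := congrArg (fun p : ℤ[X] => p.coeff 1) h
  have h2 := congrArg (fun p : ℤ[X] => p.coeff 2) h
  simp only [coeff_add, coeff_X_pow, coeff_X, coeff_C_mul, coeff_C] at h1 h2
  split_ifs at h1 h2 <;> omega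

/-- **the constant is best possible** -/
theorem sharp (n : ℕ) : (ex ^ n).natDegree = 4 * n ∧ (∀ q : ℚ, aeval q (ex ^ n) ≠ 0) ∧
    MM ((ex ^ n).comp (X ^ 2 + X)) ^ 2 = Real.goldenRatio ^ (ex ^ n).natDegree := by
  have hne : ex ≠ 0 := by
    intro h
    have := ex_natDegree
    rw [h, natDegree_zero] at this
    omega
  have hd : (ex ^ n).natDegree = 4 * n := by
    rw [natDegree_pow, ex_natDegree, mul_comm]
  refine ⟨hd, fun q => ?_, ?_⟩
  · rw [map_pow]
    exact pow_ne_zero _ (ex_pos q)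
  · rw [hd, pow_comp, MM_pow, ex_comp, MM_mul, MM_first, MM_second, one_mul, ← pow_mul, ← pow_mul]
    congr 1
    ring

end Pool.Agent.Run7.h80.Comp
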